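import Pool.Agent.Helper29.F5.Grade
import Pool.Agent.Helper66.OTR.Grad

/-!
# Gradings by an element with simple nonzero eigenvalues
-/

namespace Pool.Agent.Helper29.F5

open LinearMap Pool.Agent.Helper66.OTR Pool.Agent.Helper29.MX Module.End

set_option linter.unusedSectionVars false

variable {K V : Type*} [Field K] [AddCommGroup V] [Module K V] [FiniteDimensional K V]

/-- the operator `ad H` -/
def adg (H : Module.End K V) : Module.End K (Module.End K V) :=
  LinearMap.mulLeft K H - LinearMap.mulRight K H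

lemma adg_apply (H Z : Module.End K V) : adg H Z = H * Z - Z * H := rfl

lemma map_adg {H : Module.End K V} {μ ν : K} {Z : Module.End K V} {x : V}
    (hZ : Z ∈ (adg H).maxGenEigenspace μ) (hx : x ∈ H.maxGenEigenspace ν) :
    Z x ∈ H.maxGenEigenspace (μ + ν) := by
  rw [mem_maxGenEigenspace] at hZ hx
  obtain ⟨a, ha⟩ := hZ
  obtain ⟨b, hb⟩ := hx
  have key : ∀ n a b : ℕ, a + b ≤ n → ∀ (Z : Module.End K V) (x : V),
      ((adg H - μ • (1 : Module.End K (Module.End K V))) ^ a) Z = 0 →
      ((H - ν • (1 : Module.End K V)) ^ b) x = 0 → Z x ∈ H.maxGenEigenspace (μ + ν) := by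
    intro n
    induction n with
    | zero =>
      intro a b hab Z x hZ _
      obtain rfl : a = 0 := by omega
      have : Z = 0 := by simpa using hZ
      rw [this, LinearMap.zero_apply]
      exact Submodule.zero_mem _
    | succ n ih =>
      intro a b hab Z x hZ hx
      rcases a with _ | a
      · have : Z = 0 := by simpa using hZ
        rw [this, LinearMap.zero_apply]
        exact Submodule.zero_mem _
      rcases b with _ | b
      · have : x = 0 := by simpa using hx
        rw [this, map_zero]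
        exact Submodule.zero_mem _
      apply mem_of_sub
      have e : H (Z x) - (μ + ν) • Z x = (adg H Z - μ • Z) x + Z (H x - ν • x) := by
        rw [LinearMap.sub_apply, adg_apply, LinearMap.smul_apply, map_sub, map_smul,
          LinearMap.sub_apply, Module.End.mul_apply, Module.End.mul_apply]
        module
      rw [e]
      exact Submodule.add_mem _ (ih a (b + 1) (by omega) _ _ (pow_step hZ) hx)
        (ih (a + 1) b (by omega) _ _ hZ (pow_step hx))
  exact key _ a b le_rfl Z x ha hb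

lemma adg_induction [IsAlgClosed K] {H : Module.End K V} {s : Submodule K (Module.End K V)}
    (hs : ∀ X ∈ s, adg H X ∈ s) {p : Module.End K V → Prop} (h0 : p 0)
    (hadd : ∀ X Y, p X → p Y → p (X + Y))
    (hh : ∀ (μ : K), ∀ Z ∈ s, Z ∈ (adg H).maxGenEigenspace μ → p Z) {X : Module.End K V}
    (hX : X ∈ s) : p X := by
  have h1 := Submodule.eq_iSup_inf_genEigenspace (p := s) (f := adg H) ⊤ hs
    (iSup_maxGenEigenspace_eq_top _)
  rw [h1] at hX
  refine Submodule.iSup_induction (motive := p) _ hX ?_ h0 hadd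
  rintro μ Z ⟨hZ, hZ'⟩
  exact hh μ Z hZ hZ'

variable {ψ : LinearMap.BilinForm K V} {g : Submodule K (Module.End K V)}

lemma skew_adg [CharZero K] (d : Bas ψ g) {H : Module.End K V} (hH : H ∈ g) (hHs : Skew ψ H)
    {μ : K} (hμ : μ ≠ 0) {Z : Module.End K V} (hZg : Z ∈ g)
    (hZ : Z ∈ (adg H).maxGenEigenspace μ) : Skew ψ Z := by
  rw [mem_maxGenEigenspace] at hZ
  obtain ⟨k, hk⟩ := hZ
  induction k generalizing Z with
  | zero =>
    have : Z = 0 := by simpa using hk
    rw [this]
    intro x y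
    simp
  | succ k ih =>
    have h1 := pow_step hk
    have h2 : adg H Z ∈ g := d.closed H hH Z hZg
    have h3 := ih (g.sub_mem h2 (g.smul_mem μ hZg)) h1
    have h4 : Skew ψ (adg H Z) := by
      have h5 := skew_comm d hZg hHs
      intro x y
      have := h5 x y
      simp only [adg_apply, LinearMap.sub_apply, Module.End.mul_apply, map_sub] at this ⊢
      linear_combination (-1) * this
    intro x y
    have e1 := h3 x y
    have e2 := h4 x y
    simp only [LinearMap.sub_apply, LinearMap.smul_apply, map_sub, map_smul, smul_eq_mul] at e1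
    rw [e2] at e1
    apply mul_left_cancel₀ hμ
    linear_combination (-1) * e1

/-- **Gradings.** -/
theorem dot_of_grad [CharZero K] [IsAlgClosed K] (d : Bas ψ g) {W : Submodule K V}
    (hW : Stab g W) (hirr : IrrW g W) {H : Module.End K V} (hH : H ∈ g) (hHs : Skew ψ H)
    {J : Finset ℤ} {p : ℤ → V} {h : K} (hh : h ≠ 0)
    (h0 : (0 : ℤ) ∉ J) (hneg : ∀ j ∈ J, -j ∈ J) (hadd : ∀ i ∈ J, ∀ j ∈ J, i + j ∉ J)
    (hpW : ∀ j ∈ J, p j ∈ W) (hp : ∀ j ∈ J, H (p j) = ((j : K) * h) • p j)
    (hpp : ∀ j ∈ J, ψ (p j) (p (-j)) ≠ 0)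
    (hker : ∀ x, (∀ j ∈ J, ψ (p j) x = 0) → H x = 0) (hne : J.Nonempty)
    (hdim : J.card < Module.finrank K W) :
    ∃ u ∈ W, ∃ w ∈ W, u ≠ 0 ∧ w ≠ 0 ∧ ψ u w = 0 ∧ dot ψ u w ∈ g := by
  classical
  have hcast : ∀ j : ℤ, (j : K) * h = 0 → j = 0 := by
    intro j hj
    rcases mul_eq_zero.1 hj with h1 | h1
    · exact_mod_cast h1
    · exact absurd h1 hh
  have hp0 : ∀ j ∈ J, p j ≠ 0 := by
    intro j hj h1
    apply hpp j hj
    rw [h1, map_zero, LinearMap.zero_apply]
  have orth0 : ∀ x, H x = 0 → ∀ j ∈ J, ψ (p j) x = 0 := by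
    intro x hx j hj
    have h1 := hHs (p j) x
    rw [hp j hj, hx, map_zero, neg_zero, map_smul, LinearMap.smul_apply, smul_eq_mul] at h1
    rcases mul_eq_zero.1 h1 with h2 | h2
    · exfalso
      apply h0
      rw [← hcast j h2]
      exact hj
    · exact h2
  -- generalized eigenspaces of `H`
  have E : ∀ (μ : K) (j : ℤ), j ∈ J → (j : K) * h + μ ≠ 0 → ∀ x ∈ H.maxGenEigenspace μ,
      ψ (p j) x = 0 := by
    intro μ j hj hne x hx
    rw [mem_maxGenEigenspace] at hx
    obtain ⟨k, hk⟩ := hx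
    induction k generalizing x with
    | zero =>
      have : x = 0 := by simpa using hk
      rw [this, map_zero]
    | succ k ih =>
      have h1 := ih _ (pow_step hk)
      have h2 := hHs (p j) x
      rw [hp j hj, map_smul, LinearMap.smul_apply, smul_eq_mul] at h2
      rw [map_sub, map_smul, smul_eq_mul] at h1
      have h3 : ((j : K) * h + μ) * ψ (p j) x = 0 := by linear_combination (-1) * h1 + h2
      exact (mul_eq_zero.1 h3).resolve_left hne
  have E00 : ∀ (μ : K), μ ≠ 0 → ∀ x ∈ H.maxGenEigenspace μ, H x = 0 → x = 0 := by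
    intro μ hμ x hx hx0
    rw [mem_maxGenEigenspace] at hx
    obtain ⟨k, hk⟩ := hx
    induction k with
    | zero => simpa using hk
    | succ k ih =>
      have h1 := pow_step hk
      rw [hx0, zero_sub, map_neg, map_smul, neg_eq_zero] at h1
      exact ih ((smul_eq_zero.1 h1).resolve_left hμ)
  have E0 : ∀ x ∈ H.maxGenEigenspace 0, H x = 0 := by
    intro x hx
    refine hker x fun j hj => E 0 j hj ?_ x hx
    rw [add_zero]
    intro h1
    apply h0
    rw [← hcast j h1]
    exact hj
  have E1 : ∀ (μ : K), μ ≠ 0 → (∀ j ∈ J, (j : K) * h ≠ μ) → ∀ x ∈ H.maxGenEigenspace μ, x = 0 := by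
    intro μ hμ hμJ x hx
    refine E00 μ hμ x hx (hker x fun j hj => E μ j hj ?_ x hx)
    intro h1
    apply hμJ (-j) (hneg j hj)
    push_cast
    linear_combination (-1) * h1
  have E2 : ∀ i ∈ J, ∀ x ∈ H.maxGenEigenspace ((i : K) * h), ∃ t : K, x = t • p i := by
    intro i hi x hx
    have hi0 : (i : K) * h ≠ 0 := by
      intro h1
      apply h0
      rw [← hcast i h1]
      exact hi
    refine ⟨ψ (p (-i)) x / ψ (p (-i)) (p i), ?_⟩
    rw [← sub_eq_zero]
    have hpi : p i ∈ H.maxGenEigenspace ((i : K) * h) := by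
      rw [mem_maxGenEigenspace]
      refine ⟨1, ?_⟩
      rw [pow_one, LinearMap.sub_apply, LinearMap.smul_apply, Module.End.one_apply, hp i hi, sub_self]
    have hy := Submodule.sub_mem _ hx (Submodule.smul_mem _
      (ψ (p (-i)) x / ψ (p (-i)) (p i)) hpi)
    have hppi : ψ (p (-i)) (p i) ≠ 0 := by
      have := hpp (-i) (hneg i hi)
      rwa [neg_neg] at this
    refine E00 _ hi0 _ hy (hker _ fun j hj => ?_)
    by_cases hji : j = -i
    · rw [hji, map_sub, map_smul, smul_eq_mul, div_mul_cancel₀ _ hppi, sub_self]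
    · refine E _ j hj ?_ _ hy
      intro h1
      apply hji
      have h2 : ((j + i : ℤ) : K) * h = 0 := by push_cast; linear_combination h1
      have := hcast _ h2
      omega
  -- the kernel of `H` on `W`
  obtain ⟨f, hf⟩ : ∃ f : W →ₗ[K] (J → K), ∀ (x : W) (j : J), f x j = ψ (p j) x :=
    ⟨LinearMap.pi fun j => (ψ (p j)) ∘ₗ W.subtype, fun x j => rfl⟩
  obtain ⟨x₁, hx₁, hx₁0⟩ := Submodule.exists_mem_ne_zero_of_ne_bot
    (LinearMap.ker_ne_bot_of_finrank_lt (f := f) (by
      rw [Module.finrank_fintype_fun_eq_card, Fintype.card_coe]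
      exact hdim))
  have hHx₁ : H x₁ = 0 := by
    refine hker _ fun j hj => ?_
    rw [← hf x₁ ⟨j, hj⟩, LinearMap.mem_ker.1 hx₁]
    rfl
  obtain ⟨F, hF⟩ : ∃ F : Submodule K V, F = W ⊓ LinearMap.ker H := ⟨_, rfl⟩
  have hFm : ∀ x, x ∈ F ↔ x ∈ W ∧ H x = 0 := fun x => by
    rw [hF, Submodule.mem_inf, LinearMap.mem_ker]
  have hnst : ¬ Stab g F := by
    intro hst
    rcases hirr.2 F (by rw [hF]; exact inf_le_left) hst with h1 | h1
    · have : (x₁ : V) ∈ F := (hFm _).2 ⟨x₁.2, hHx₁⟩
      rw [h1, Submodule.mem_bot] at this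
      exact hx₁0 (Subtype.ext this)
    · obtain ⟨j, hj⟩ := hne
      have : p j ∈ F := by rw [h1]; exact hpW j hj
      have h2 := ((hFm _).1 this).2
      rw [hp j hj] at h2
      rcases smul_eq_zero.1 h2 with h3 | h3
      · apply h0
        rw [← hcast j h3]
        exact hj
      · exact hp0 j hj h3
  obtain ⟨Z₀, hZ₀, x₀, hx₀, hZx₀⟩ : ∃ Z ∈ g, ∃ x ∈ F, Z x ∉ F := by
    by_contra hcon
    push Not at hcon
    exact hnst fun Z hZ x hx => hcon Z hZ x hx
  obtain ⟨μ, hμ, Z, hZ, hZμ, x, hx, hZx⟩ : ∃ μ : K, μ ≠ 0 ∧ ∃ Z ∈ g,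
      Z ∈ (adg H).maxGenEigenspace μ ∧ ∃ x ∈ F, Z x ≠ 0 := by
    by_contra hcon
    push Not at hcon
    apply hZx₀
    refine (hFm _).2 ⟨hW Z₀ hZ₀ _ ((hFm _).1 hx₀).1, ?_⟩
    refine adg_induction (H := H) (s := g) (p := fun Z => H (Z x₀) = 0)
      (fun X hX => d.closed H hH X hX) (by simp)
      (fun X Y h1 h2 => by rw [LinearMap.add_apply, map_add, h1, h2, add_zero]) ?_ hZ₀
    intro μ Z hZ hZμ
    by_cases hμ : μ = 0
    · rw [hμ] at hZμ
      apply E0
      have h1 : x₀ ∈ H.maxGenEigenspace 0 := by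
        rw [mem_maxGenEigenspace]
        refine ⟨1, ?_⟩
        rw [pow_one, LinearMap.sub_apply, ((hFm _).1 hx₀).2, zero_smul, LinearMap.zero_apply,
          sub_zero]
      have h2 := map_adg hZμ h1
      rwa [add_zero] at h2
    · rw [hcon μ hμ Z hZ hZμ x₀ hx₀, map_zero]
  have hker0 : ∀ x, H x = 0 → Z x ∈ H.maxGenEigenspace μ := by
    intro x hx
    have h1 : x ∈ H.maxGenEigenspace 0 := by
      rw [mem_maxGenEigenspace]
      refine ⟨1, ?_⟩
      rw [pow_one, LinearMap.sub_apply, hx, zero_smul, LinearMap.zero_apply, sub_zero]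
    have h2 := map_adg hZμ h1
    rwa [add_zero] at h2
  obtain ⟨m, hm, hmμ⟩ : ∃ j ∈ J, (j : K) * h = μ := by
    by_contra hcon
    push Not at hcon
    exact hZx (E1 μ hμ hcon _ (hker0 x ((hFm _).1 hx).2))
  subst hmμ
  have hsk := skew_adg d hH hHs hμ hZ hZμ
  have hgen : ∀ j ∈ J, p j ∈ H.maxGenEigenspace ((j : K) * h) := by
    intro j hj
    rw [mem_maxGenEigenspace]
    refine ⟨1, ?_⟩
    rw [pow_one, LinearMap.sub_apply, LinearMap.smul_apply, Module.End.one_apply, hp j hj, sub_self]
  have hc : ψ (p m) (p (-m)) ≠ 0 := hpp m hm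
  obtain ⟨q, hq⟩ : ∃ q, q = (ψ (p m) (p (-m)))⁻¹ • p (-m) := ⟨_, rfl⟩
  have hmq : ψ (p m) q = 1 := by rw [hq, map_smul, smul_eq_mul, inv_mul_cancel₀ hc]
  have hZq : H (Z q) = 0 := by
    apply E0
    have h1 := map_adg hZμ (hgen (-m) (hneg m hm))
    have e1 : (m : K) * h + ((-m : ℤ) : K) * h = 0 := by push_cast; ring
    rw [e1] at h1
    rw [hq, map_smul]
    exact Submodule.smul_mem _ _ h1
  have hmain : ∀ y, ψ (p m) y = 0 → ∃ t : K, Z y = t • p m := by
    intro y hy
    obtain ⟨z, hz⟩ : ∃ z, z = ∑ j ∈ J, (ψ (p (-j)) y / ψ (p (-j)) (p j)) • p j := ⟨_, rfl⟩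
    have hpm : ∀ j ∈ J, ψ (p (-j)) (p j) ≠ 0 := by
      intro j hj
      have := hpp (-j) (hneg j hj)
      rwa [neg_neg] at this
    have hHf : H (y - z) = 0 := by
      refine hker _ fun i hi => ?_
      rw [map_sub, hz, map_sum, Finset.sum_eq_single (-i)]
      · rw [map_smul, neg_neg, smul_eq_mul, div_mul_cancel₀ _ (hpp i hi), sub_self]
      · intro j hj hji
        rw [map_smul, E _ i hi ?_ _ (hgen j hj), smul_zero]
        intro h1
        apply hji
        have h2 : ((i + j : ℤ) : K) * h = 0 := by push_cast; linear_combination h1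
        have := hcast _ h2
        omega
      · intro h1
        exact absurd (hneg i hi) h1
    have hZz : Z z = 0 := by
      rw [hz, map_sum]
      refine Finset.sum_eq_zero fun j hj => ?_
      rw [map_smul]
      by_cases hjm : j = -m
      · rw [hjm, neg_neg, hy, zero_div, zero_smul]
      · have h1 := map_adg hZμ (hgen j hj)
        have h2 : Z (p j) = 0 := by
          refine E1 _ ?_ ?_ _ h1
          · intro h3
            apply hjm
            have h4 : ((m + j : ℤ) : K) * h = 0 := by push_cast; linear_combination h3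
            have := hcast _ h4
            omega
          · intro i hi h3
            apply hadd m hm j hj
            have h4 : ((i - (m + j) : ℤ) : K) * h = 0 := by push_cast; linear_combination h3
            have := hcast _ h4
            have h5 : m + j = i := by omega
            rw [h5]
            exact hi
        rw [h2, smul_zero]
    obtain ⟨t, ht⟩ := E2 m hm _ (hker0 _ hHf)
    refine ⟨t, ?_⟩
    rw [← ht, map_sub, hZz, sub_zero]
  have hZdot := dot_of d hsk hmq hmain
  have hself : ψ (Z q) q = 0 := by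
    rw [neg d, hq, map_smul, map_smul, LinearMap.smul_apply]
    have h1 := orth0 (Z (p (-m))) (by
      rw [hq, map_smul, map_smul] at hZq
      exact (smul_eq_zero.1 hZq).resolve_left (inv_ne_zero hc)) (-m) (hneg m hm)
    rw [map_smul, h1, smul_zero, smul_zero, neg_zero]
  rw [hself, zero_div, zero_smul, sub_zero] at hZdot
  refine ⟨p m, hpW m hm, Z q, hW Z hZ q ?_, hp0 m hm, ?_, orth0 _ hZq m hm, hZdot ▸ hZ⟩
  · rw [hq]
    exact W.smul_mem _ (hpW (-m) (hneg m hm))
  · intro h1
    apply hZx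
    rw [hZdot, h1, dot_apply]
    simp

end Pool.Agent.Helper29.F5
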