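import Pool.Agent.Helper29.MX.Hit
import Pool.Agent.Helper29.MX.Sp
import Pool.Agent.Helper29.MX.Trans

/-!
# Basic facts, nonisotropic blocks
-/

namespace Pool.Agent.Helper29.F5

open LinearMap Pool.Agent.Helper66.OTR Pool.Agent.Helper29.MX

set_option linter.unusedSectionVars false

variable {K V : Type*} [Field K] [AddCommGroup V] [Module K V] [FiniteDimensional K V]

/-- the standing data -/
structure Bas (ψ : LinearMap.BilinForm K V) (g : Submodule K (Module.End K V)) : Prop where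
  nd : ψ.Nondegenerate
  alt : ∀ x, ψ x x = 0
  closed : LieClosed g
  gsp : ∀ X ∈ g, ∃ c : K, ∀ x y, ψ (X x) y + ψ x (X y) = c * ψ x y
  ss : ∀ W : Submodule K V, Stab g W → ∃ W', Stab g W' ∧ IsCompl W W'

/-- restriction of the elements of `g` to `W` -/
def res (g : Submodule K (Module.End K V)) (W : Submodule K V) :
    Submodule K (Module.End K W) where
  carrier := {Y | ∃ X ∈ g, ∀ x : W, (Y x : V) = X x}
  zero_mem' := ⟨0, g.zero_mem, fun x => by simp⟩
  add_mem' := by
    rintro a b ⟨X, hX, h⟩ ⟨Y, hY, h'⟩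
    exact ⟨X + Y, g.add_mem hX hY, fun x => by simp [h, h']⟩
  smul_mem' := by
    rintro t a ⟨X, hX, h⟩
    exact ⟨t • X, g.smul_mem t hX, fun x => by simp [h]⟩

/-- irreducible stable subspaces -/
def IrrW (g : Submodule K (Module.End K V)) (W : Submodule K V) : Prop :=
  W ≠ ⊥ ∧ ∀ U ≤ W, Stab g U → U = ⊥ ∨ U = W

variable {ψ : LinearMap.BilinForm K V} {g : Submodule K (Module.End K V)}

lemma nd_eq (d : Bas ψ g) {x : V} (h : ∀ y, ψ x y = 0) : x = 0 := by
  apply (LinearMap.BilinForm.nondegenerate_iff_ker_eq_bot.1 d.nd |> LinearMap.ker_eq_bot.1)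
  ext y
  rw [h y, map_zero, LinearMap.zero_apply]

lemma neg (d : Bas ψ g) (x y : V) : ψ x y = - ψ y x := by
  have h := d.alt (x + y)
  simp only [map_add, LinearMap.add_apply, d.alt] at h
  linear_combination h

/-- the orthogonal complement, as a set of conditions -/
lemma mem_perp (d : Bas ψ g) {W : Submodule K V} {x : V} :
    x ∈ ψ.orthogonal W ↔ ∀ y ∈ W, ψ x y = 0 := by
  rw [LinearMap.BilinForm.mem_orthogonal_iff]
  constructor
  · intro h y hy
    rw [neg d, neg_eq_zero]
    exact h y hy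
  · intro h y hy
    show ψ y x = 0
    rw [neg d, neg_eq_zero]
    exact h y hy

lemma isRefl (d : Bas ψ g) : ψ.IsRefl := by
  intro x y h
  rw [neg d, h, neg_zero]

lemma perp_perp (d : Bas ψ g) (W : Submodule K V) : ψ.orthogonal (ψ.orthogonal W) = W :=
  LinearMap.BilinForm.orthogonal_orthogonal d.nd (isRefl d) W

lemma stab_perp (d : Bas ψ g) {W : Submodule K V} (hW : Stab g W) :
    Stab g (ψ.orthogonal W) := by
  intro X hX x hx
  rw [mem_perp d] at hx ⊢
  intro y hy
  obtain ⟨m, hm⟩ := d.gsp X hX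
  have h := hm x y
  rw [hx y hy, hx _ (hW X hX y hy)] at h
  simpa using h

lemma sup_perp (d : Bas ψ g) {B : Submodule K V}
    (hBB : ∀ x ∈ B, x ∈ ψ.orthogonal B → x = 0) : B ⊔ ψ.orthogonal B = ⊤ := by
  have h : Disjoint B (ψ.orthogonal B) := by
    rw [Submodule.disjoint_def]
    exact hBB
  exact ((LinearMap.BilinForm.isCompl_orthogonal_iff_disjoint (isRefl d)).2 h).sup_eq_top

lemma stab_inf {U W : Submodule K V} (hU : Stab g U) (hW : Stab g W) : Stab g (U ⊓ W) :=
  fun X hX x hx => ⟨hU X hX x hx.1, hW X hX x hx.2⟩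

lemma stab_sup {U W : Submodule K V} (hU : Stab g U) (hW : Stab g W) : Stab g (U ⊔ W) := by
  intro T hT x hx
  obtain ⟨a, ha, b, hb, rfl⟩ := Submodule.mem_sup.1 hx
  rw [map_add]
  exact Submodule.add_mem_sup (hU T hT a ha) (hW T hT b hb)

lemma res_closed (hg : LieClosed g) (W : Submodule K V) : LieClosed (res g W) := by
  rintro a ⟨X, hX, h⟩ b ⟨Y, hY, h'⟩
  exact ⟨X * Y - Y * X, hg _ hX _ hY, fun x => by simp [h, h']⟩

lemma res_irred {W : Submodule K V} (hW : Stab g W) (h : IrrW g W) : Irred (res g W) := by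
  refine ⟨(Submodule.nontrivial_iff_ne_bot).2 h.1, fun U hU => ?_⟩
  rcases h.2 (U.map W.subtype) (by
    rintro _ ⟨x, -, rfl⟩
    exact x.2) (by
    rintro X hX _ ⟨x, hx, rfl⟩
    exact ⟨X.restrict (hW X hX) x, hU _ ⟨X, hX, fun _ => rfl⟩ x hx, rfl⟩) with h1 | h1
  · left
    rw [eq_bot_iff]
    intro x hx
    have : (x : V) ∈ U.map W.subtype := ⟨x, hx, rfl⟩
    rw [h1, Submodule.mem_bot] at this
    exact Subtype.ext this
  · right
    rw [eq_top_iff]
    intro x _
    have : (x : V) ∈ U.map W.subtype := by rw [h1]; exact x.2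
    obtain ⟨y, hy, hyx⟩ := this
    have : y = x := Subtype.ext hyx
    exact this ▸ hy

/-- skew elements of `g` which kill `M` -/
def ann (ψ : LinearMap.BilinForm K V) (g : Submodule K (Module.End K V)) (M : Submodule K V) :
    Submodule K (Module.End K V) where
  carrier := {X | X ∈ g ∧ Skew ψ X ∧ ∀ x ∈ M, X x = 0}
  zero_mem' := ⟨g.zero_mem, fun x y => by simp, fun x _ => rfl⟩
  add_mem' := by
    rintro a b ⟨h1, h2, h3⟩ ⟨h1', h2', h3'⟩
    refine ⟨g.add_mem h1 h1', fun x y => ?_, fun x hx => ?_⟩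
    · rw [LinearMap.add_apply, map_add, LinearMap.add_apply, h2, h2', LinearMap.add_apply, map_add]
      ring
    · rw [LinearMap.add_apply, h3 x hx, h3' x hx, add_zero]
  smul_mem' := by
    rintro t a ⟨h1, h2, h3⟩
    refine ⟨g.smul_mem t h1, fun x y => ?_, fun x hx => ?_⟩
    · rw [LinearMap.smul_apply, map_smul, LinearMap.smul_apply, h2, LinearMap.smul_apply, map_smul]
      simp only [smul_eq_mul]
      ring
    · rw [LinearMap.smul_apply, h3 x hx, smul_zero]

lemma ann_le (ψ : LinearMap.BilinForm K V) (g : Submodule K (Module.End K V)) (M : Submodule K V) :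
    ann ψ g M ≤ g := fun _ hX => hX.1

lemma skew_comm (d : Bas ψ g) {X Z : Module.End K V} (hX : X ∈ g) (hZ : Skew ψ Z) :
    Skew ψ (X * Z - Z * X) := by
  intro x y
  obtain ⟨m, hm⟩ := d.gsp X hX
  have h1 := hm (Z x) y
  have h2 := hm x (Z y)
  have h3 := hZ (X x) y
  have h4 := hZ x (X y)
  have h5 := hZ x y
  simp only [LinearMap.sub_apply, Module.End.mul_apply, map_sub]
  linear_combination h1 - h3 - h4 + h2 + m * h5

lemma ann_ideal (d : Bas ψ g) {M : Submodule K V} (hM : Stab g M) {X Z : Module.End K V}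
    (hX : X ∈ g) (hZ : Z ∈ ann ψ g M) : X * Z - Z * X ∈ ann ψ g M := by
  obtain ⟨h1, h2, h3⟩ := hZ
  refine ⟨d.closed _ hX _ h1, skew_comm d hX h2, fun x hx => ?_⟩
  rw [LinearMap.sub_apply, Module.End.mul_apply, Module.End.mul_apply, h3 x hx, map_zero,
    h3 _ (hM X hX x hx), sub_zero]

lemma res_ideal (d : Bas ψ g) {W M : Submodule K V} (hM : Stab g M)
    {X Z : Module.End K W} (hX : X ∈ res g W) (hZ : Z ∈ res (ann ψ g M) W) :
    X * Z - Z * X ∈ res (ann ψ g M) W := by
  obtain ⟨X', hX', h⟩ := hX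
  obtain ⟨Z', hZ', h'⟩ := hZ
  exact ⟨_, ann_ideal d hM hX' hZ', fun x => by simp [h, h']⟩

lemma res_mono {g' : Submodule K (Module.End K V)} (h : g' ≤ g) (W : Submodule K V) :
    res g' W ≤ res g W := by
  rintro Y ⟨X, hX, hY⟩
  exact ⟨X, h hX, hY⟩

lemma dot_skew (d : Bas ψ g) (u w : V) : Skew ψ (dot ψ u w) := by
  intro x y
  simp only [dot_apply, map_add, map_smul, LinearMap.add_apply, LinearMap.smul_apply, smul_eq_mul]
  rw [neg d x w, neg d x u]
  ring

/-- **Nonisotropic blocks.** -/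
theorem blockA [CharZero K] [IsAlgClosed K] (d : Bas ψ g) {W : Submodule K V}
    (hW : Stab g W) (hirr : IrrW g W) (hWW : ∀ x ∈ W, x ∈ ψ.orthogonal W → x = 0) {u w : V}
    (hu : u ∈ W) (hu0 : u ≠ 0) (hw0 : w ≠ 0) (huw : ψ u w = 0) (h : dot ψ u w ∈ g)
    {X : Module.End K V} (hX : Skew ψ X) (hXW : ∀ x ∈ W, X x ∈ W) :
    ∃ Z ∈ g, (∀ x ∈ W, Z x = X x) ∧ ∀ x ∈ ψ.orthogonal W, Z x = 0 := by
  have hM := stab_perp d hW
  have hwW : w ∈ W := by
    rw [← perp_perp d W, mem_perp d]
    intro z hz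
    by_contra hne
    apply hu0
    apply hWW u hu
    have h1 := hM _ h z hz
    rw [dot_apply] at h1
    have h2 : ψ u z = 0 := by
      rw [neg d, (mem_perp d).1 hz u hu, neg_zero]
    rw [h2, zero_smul, zero_add] at h1
    have h3 := (ψ.orthogonal W).smul_mem (ψ w z)⁻¹ h1
    rwa [smul_smul, inv_mul_cancel₀ hne, one_smul] at h3
  have hnd : (ψ.restrict W).Nondegenerate := by
    refine LinearMap.BilinForm.nondegenerate_restrict_of_disjoint_orthogonal ψ (isRefl d) ?_
    rw [Submodule.disjoint_def]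
    exact hWW
  have halt : ∀ x, (ψ.restrict W) x x = 0 := fun x => d.alt x
  have hgsp : ∀ X ∈ res g W, ∃ c : K, ∀ x y, (ψ.restrict W) (X x) y + (ψ.restrict W) x (X y) =
      c * (ψ.restrict W) x y := by
    rintro Y ⟨Y', hY', h'⟩
    obtain ⟨m, hm⟩ := d.gsp Y' hY'
    refine ⟨m, fun x y => ?_⟩
    have := hm x y
    rw [← h', ← h'] at this
    exact this
  have hirr' := res_irred hW hirr
  have S := spart_setup hnd halt (res_closed d.closed W) hgsp hirr'
  obtain ⟨u', hu'⟩ : ∃ u' : W, (u' : V) = u := ⟨⟨u, hu⟩, rfl⟩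
  obtain ⟨w', hw'⟩ : ∃ w' : W, (w' : V) = w := ⟨⟨w, hwW⟩, rfl⟩
  obtain ⟨N, hN⟩ : ∃ N, N = dot (ψ.restrict W) u' w' := ⟨_, rfl⟩
  have hNx : ∀ x : W, N x = ψ u x • w' + ψ w x • u' := by
    intro x
    rw [hN, dot_apply, ← hu', ← hw']
    rfl
  have hNv : ∀ x : W, (N x : V) = dot ψ u w x := by
    intro x
    rw [hNx, dot_apply]
    simp [hu', hw']
  have hNg : N ∈ res g W := ⟨_, h, hNv⟩
  have hwu : ψ w u = 0 := by rw [neg d, huw, neg_zero]
  have hNN : N * N = 0 := by
    ext x
    rw [Module.End.mul_apply, LinearMap.zero_apply, hNv, hNx]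
    simp [dot_apply, hu', hw', huw, hwu, d.alt]
  have hN0 : N ≠ 0 := by
    intro h0
    have hu'0 : u' ≠ 0 := by
      rintro rfl
      exact hu0 (by rw [← hu']; rfl)
    obtain ⟨x, hx⟩ := exists_ne_of_nd hnd hu'0
    have hx' : ψ u x ≠ 0 := by rw [← hu']; exact hx
    have h1 : (N x : V) = 0 := by rw [h0]; rfl
    rw [hNv, dot_apply] at h1
    have h2 := congrArg (fun z => ψ z x) h1
    simp only [map_add, map_smul, LinearMap.add_apply, LinearMap.smul_apply, smul_eq_mul, map_zero,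
      LinearMap.zero_apply] at h2
    have h3 : (2 * ψ u x) * ψ w x = 0 := by linear_combination h2
    have h4 : ψ w x = 0 := (mul_eq_zero.1 h3).resolve_left (mul_ne_zero two_ne_zero hx')
    rw [h4, zero_smul, add_zero] at h1
    exact hw0 ((smul_eq_zero.1 h1).resolve_left hx')
  have hnt : Nontrivial W := hirr'.1
  have hNs : N ∈ spart (ψ.restrict W) (res g W) := nilp_mem hnd hgsp hNg hNN
  have hrk : Module.finrank K (LinearMap.range N) ≤ 2 := by
    classical
    have h1 : LinearMap.range N ≤ Submodule.span K ((({u', w'} : Finset W)) : Set W) := by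
      rintro _ ⟨x, rfl⟩
      rw [hNx]
      exact Submodule.add_mem _ (Submodule.smul_mem _ _ (Submodule.subset_span (by simp)))
        (Submodule.smul_mem _ _ (Submodule.subset_span (by simp)))
    exact (Submodule.finrank_mono h1).trans
      ((finrank_span_finset_le_card _).trans Finset.card_le_two)
  have hrk0 : Module.finrank K (LinearMap.range N) ≠ 0 := by
    intro h0
    rw [Submodule.finrank_eq_zero, LinearMap.range_eq_bot] at h0
    exact hN0 h0
  have hall : ∀ Y : Module.End K W, (∀ x y, (ψ.restrict W) (Y x) y = - (ψ.restrict W) x (Y y)) →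
      Y ∈ spart (ψ.restrict W) (res g W) := by
    intro Y hY
    rcases (by omega : Module.finrank K (LinearMap.range N) = 1 ∨
      Module.finrank K (LinearMap.range N) = 2) with h1 | h1
    · exact S.rank_one hNs h1 hY
    · exact S.rank_two hNs hNN h1 hY
  have hall' : ∀ Y : Module.End K W, Skew (ψ.restrict W) Y → Y ∈ res g W := fun Y hY =>
    sp_le_of_spart hnd halt (res_closed d.closed W) S hall hY
  have hNn : N ∈ res (ann ψ g (ψ.orthogonal W)) W := by
    refine ⟨_, ⟨h, dot_skew d u w, fun x hx => ?_⟩, hNv⟩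
    rw [mem_perp d] at hx
    rw [dot_apply, neg d u, hx u hu, neg d w, hx w hwW]
    simp
  have hfin := sp_ideal S (n := res (ann ψ g (ψ.orthogonal W)) W)
    (fun Y hY Z hZ => res_ideal d hM (hall' Y hY) hZ) hNn hNs.1 hN0
    (X := X.restrict hXW) (fun x y => hX x y)
  obtain ⟨Z, hZ, hZX⟩ := hfin
  exact ⟨Z, hZ.1, fun x hx => (hZX ⟨x, hx⟩).symm, hZ.2.2⟩

/-- minimal stable subspaces -/
lemma exists_irr {B : Submodule K V} : ∀ n : ℕ, ∀ U ≤ B, Stab g U → U ≠ ⊥ →
    Module.finrank K U ≤ n → ∃ W ≤ B, Stab g W ∧ IrrW g W := by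
  intro n
  induction n with
  | zero =>
    intro U _ _ hU0 hn
    exact absurd (Submodule.finrank_eq_zero.1 (Nat.le_zero.1 hn)) hU0
  | succ n ih =>
    intro U hUB hU hU0 hn
    by_cases h : IrrW g U
    · exact ⟨U, hUB, hU, h⟩
    · unfold IrrW at h
      push Not at h
      obtain ⟨U', hU'U, hU', h1, h2⟩ := h hU0
      have := Submodule.finrank_lt_finrank_of_lt (lt_of_le_of_ne hU'U h2)
      exact ih U' (hU'U.trans hUB) hU' h1 (by omega)

/-- every vector is a sum of vectors of irreducible stable subspaces -/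
lemma irr_ind (d : Bas ψ g) {p : V → Prop} (h0 : p 0) (hadd : ∀ x y, p x → p y → p (x + y))
    (hU : ∀ U : Submodule K V, Stab g U → IrrW g U → ∀ x ∈ U, p x) (x : V) : p x := by
  obtain ⟨S, hS⟩ : ∃ S : Submodule K V,
      S = ⨆ U : {U : Submodule K V // Stab g U ∧ IrrW g U}, (U : Submodule K V) := ⟨_, rfl⟩
  have hle : ∀ U : Submodule K V, Stab g U → IrrW g U → U ≤ S := by
    intro U h1 h2
    rw [hS]
    exact le_iSup (fun U : {U : Submodule K V // Stab g U ∧ IrrW g U} => (U : Submodule K V))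
      ⟨U, h1, h2⟩
  have hSst : Stab g S := by
    intro X hX y hy
    rw [hS] at hy
    refine Submodule.iSup_induction _ (motive := fun y => X y ∈ S) hy ?_ ?_ ?_
    · intro U z hz
      exact hle U U.2.1 U.2.2 (U.2.1 X hX z hz)
    · rw [map_zero]
      exact S.zero_mem
    · intro a b h1 h2
      rw [map_add]
      exact S.add_mem h1 h2
  have hStop : S = ⊤ := by
    obtain ⟨C, hC, hc⟩ := d.ss S hSst
    by_cases hC0 : C = ⊥
    · rw [hC0] at hc
      exact eq_top_of_isCompl_bot hc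
    · exfalso
      obtain ⟨W, hWC, hW, hirr⟩ := exists_irr _ C le_rfl hC hC0 le_rfl
      apply hirr.1
      rw [eq_bot_iff, ← hc.inf_eq_bot]
      exact le_inf (hle W hW hirr) hWC
  have hx : x ∈ S := by rw [hStop]; trivial
  rw [hS] at hx
  refine Submodule.iSup_induction _ (motive := p) hx ?_ h0 hadd
  intro U z hz
  exact hU U U.2.1 U.2.2 z hz

/-- operators which commute with the endomorphisms of the representation preserve the stable
subspaces -/
lemma comm_stab (d : Bas ψ g) {X : Module.End K V}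
    (hX : ∀ T : Module.End K V, (∀ Y ∈ g, T * Y = Y * T) → X * T = T * X) {W : Submodule K V}
    (hW : Stab g W) : ∀ x ∈ W, X x ∈ W := by
  obtain ⟨W', hW', hc⟩ := d.ss W hW
  obtain ⟨T, hT⟩ : ∃ T : Module.End K V, T = W.subtype ∘ₗ (W.projectionOnto W' hc) :=
    ⟨_, rfl⟩
  have hT1 : ∀ x ∈ W, T x = x := by
    intro x hx
    rw [hT]
    have := Submodule.projectionOnto_apply_left hc ⟨x, hx⟩
    simp [this]
  have hT2 : ∀ x ∈ W', T x = 0 := by
    intro x hx
    rw [hT]
    have := (Submodule.projectionOnto_apply_eq_zero_iff hc).2 hx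
    simp [this]
  have hT3 : ∀ x, T x ∈ W := by
    intro x
    rw [hT]
    exact Submodule.coe_mem _
  have h1 : X * T = T * X := by
    refine hX T fun Y hY => ?_
    ext x
    have hx : x ∈ W ⊔ W' := by rw [hc.sup_eq_top]; trivial
    obtain ⟨a, ha, b, hb, rfl⟩ := Submodule.mem_sup.1 hx
    rw [Module.End.mul_apply, Module.End.mul_apply, map_add, map_add, map_add, hT1 a ha, hT2 b hb,
      hT1 _ (hW Y hY a ha), hT2 _ (hW' Y hY b hb), add_zero, add_zero]
  intro x hx
  have h2 := congrArg (fun f => f x) h1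
  simp only [Module.End.mul_apply, hT1 x hx] at h2
  rw [h2]
  exact hT3 _


end Pool.Agent.Helper29.F5
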