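import Pool.Agent.Helper29.F5.Sym

/-!
# Nonisotropic blocks with exceptional relations
-/

namespace Pool.Agent.Helper29.F5

open LinearMap Pool.Agent.Helper66.OTR Pool.Agent.Helper29.MX Module.End

set_option linter.unusedSectionVars false

variable {K V Λ : Type*} [Field K] [AddCommGroup V] [Module K V] [FiniteDimensional K V]
variable [AddCommGroup Λ]
variable {ψ : LinearMap.BilinForm K V} {g : Submodule K (Module.End K V)}
variable {P : Λ → Module.End K V} {m a : Λ}

/-- an element of `g` which pairs nontrivially with a given one -/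
lemma exists_opp [CharZero K] [IsAlgClosed K] (d : Bas ψ g) {W : Submodule K V}
    (hirr : IrrW g W) (hW : Stab g W) {p q w : V} {s : K} (hpW : p ∈ W) (hqW : q ∈ W) (hwW : w ∈ W)
    (hpq : ψ p q = 1) (hqw : ψ q w = 0) (hs : s ≠ 0)
    (hX : (s / 2) • dot ψ p p + dot ψ q w ∈ g) :
    ∃ Z ∈ g, s * ψ p (Z p) + ψ q (Z w) + ψ w (Z q) ≠ 0 := by
  by_contra hcon
  push Not at hcon
  have hwq : ψ w q = 0 := by rw [neg d, hqw, neg_zero]
  obtain ⟨M, hM⟩ : ∃ M : Module.End K W, M = s • rk ((ψ p) ∘ₗ W.subtype) ⟨p, hpW⟩ +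
      rk ((ψ q) ∘ₗ W.subtype) ⟨w, hwW⟩ + rk ((ψ w) ∘ₗ W.subtype) ⟨q, hqW⟩ := ⟨_, rfl⟩
  have h1 : M = 0 := by
    refine trace_nondeg (tz_closed (res_closed d.closed W)) (tz_irred (res_irred hW hirr))
      (fun X hX => hX.1) (M := M) ⟨?_, 0, ?_⟩ ?_
    · rw [hM, map_add, map_add, map_smul, trace_rk, trace_rk, trace_rk]
      simp only [LinearMap.comp_apply, Submodule.subtype_apply]
      rw [d.alt, hqw, hwq, smul_zero, add_zero, add_zero]
    · rw [zero_smul, add_zero]
      refine ⟨_, hX, fun x => ?_⟩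
      rw [hM]
      simp only [LinearMap.add_apply, LinearMap.smul_apply, rk_apply, LinearMap.comp_apply,
        Submodule.subtype_apply, Submodule.coe_add, Submodule.coe_smul, dot_apply]
      module
    · rintro Z ⟨hZ, t, Z', hZ', hZZ⟩
      have h2 : ∀ x : W, (Z x : V) = Z' x - t • (x : V) := by
        intro x
        rw [← hZZ x]
        simp
      have h3 := hcon Z' hZ'
      rw [hM, add_mul, add_mul, smul_mul_assoc, rk_mul, rk_mul, rk_mul, map_add, map_add, map_smul,
        trace_rk, trace_rk, trace_rk]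
      simp only [LinearMap.comp_apply, Submodule.subtype_apply]
      rw [h2, h2, h2, map_sub, map_sub, map_sub, map_smul, map_smul, map_smul]
      simp only [d.alt, hqw, hwq, smul_eq_mul, mul_zero, sub_zero]
      exact h3
  have h2 := congrArg (fun f => ((f ⟨q, hqW⟩ : W) : V)) h1
  rw [hM] at h2
  simp only [LinearMap.add_apply, LinearMap.smul_apply, rk_apply, LinearMap.comp_apply,
    Submodule.subtype_apply, Submodule.coe_add, Submodule.coe_smul, LinearMap.zero_apply,
    Submodule.coe_zero, hpq, hwq, d.alt, zero_smul, one_smul, add_zero] at h2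
  rcases smul_eq_zero.1 h2 with h3 | h3
  · exact hs h3
  · rw [h3, map_zero, LinearMap.zero_apply] at hpq
    exact zero_ne_one hpq

/-- the core of the exceptional case -/
theorem core [CharZero K] [IsAlgClosed K] (G : Grd ψ g P m) (d : Bas ψ g) {W : Submodule K V}
    (hW : Stab g W) (hirr : IrrW g W) (h4 : 4 < Module.finrank K W) {p q : V} {r k : Λ}
    (hpW : p ∈ W) (hqW : q ∈ W) (hpq : ψ p q = 1) (hp : P r p = p) (hq : P (m - r) q = q)
    (hk : k = r + r - m) (hk0 : k ≠ 0) (hkk : k + k ≠ 0) {X : Module.End K V} (hX : X ∈ g)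
    (hXk : Ho P k X) {s : K} (hs : s ≠ 0) (hXq : X q = s • p)
    (hXF : ∀ x, ψ p x = 0 → ψ q x = 0 → ∃ t : K, X x = t • q)
    (hY : X p ≠ 0 → ∀ Z ∈ g, Ho P (-k) Z → (∃ t : K, Z p = t • q) ∧
      ∀ x, ψ p x = 0 → ψ q x = 0 → ∃ t : K, Z x = t • p) :
    ∃ u ∈ W, ∃ w ∈ W, u ≠ 0 ∧ w ≠ 0 ∧ ψ u w = 0 ∧ dot ψ u w ∈ g := by
  have hp0 : p ≠ 0 := by
    rintro rfl
    rw [map_zero, LinearMap.zero_apply] at hpq
    exact zero_ne_one hpq
  have hXsk := G.skew d hk0 hX hXk
  have hXp := hXk r p hp
  have h1 : ψ (X p) p = 0 := by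
    refine G.form0 hXp hp ?_
    intro h
    apply hkk
    have : k + k = (k + r + r) - m := by
      nth_rewrite 2 [hk]
      abel
    rw [this, h, sub_self]
  have hform := form_of d hXsk hpq hXq hXF
  rw [h1, zero_div, zero_smul, sub_zero] at hform
  by_cases hXp0 : X p = 0
  · rw [hXp0, neg_zero] at hform
    have h2 : dot ψ p ((s / 2) • p) ∈ g := by
      rw [dot_smul]
      have e : dot ψ q (0 : V) = 0 := by
        ext x
        simp [dot_apply]
      rw [e, add_zero] at hform
      rw [← hform]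
      exact hX
    refine ⟨p, hpW, (s / 2) • p, W.smul_mem _ hpW, hp0, ?_, ?_, h2⟩
    · exact smul_ne_zero (div_ne_zero hs two_ne_zero) hp0
    · rw [map_smul, d.alt, smul_zero]
  have hY' := hY hXp0
  obtain ⟨w, hw⟩ : ∃ w, w = -(X p) := ⟨_, rfl⟩
  rw [← hw] at hform
  have hwW : w ∈ W := by rw [hw]; exact W.neg_mem (hW X hX p hpW)
  have hw0 : w ≠ 0 := by rw [hw]; exact neg_ne_zero.2 hXp0
  have hwP : P (k + r) w = w := by rw [hw, map_neg, hXp]
  have hpw : ψ p w = 0 := by rw [hw, map_neg, neg d p, h1]; simp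
  have hqw : ψ q w = 0 := by
    refine G.form0 hq hwP ?_
    intro h
    apply hk0
    have : k = (m - r) + (k + r) - m := by abel
    rw [this, h, sub_self]
  have hXg : (s / 2) • dot ψ p p + dot ψ q w ∈ g := hform ▸ hX
  -- a homogeneous element of the opposite degree
  obtain ⟨k', Z, hZ, hZk, hτ⟩ : ∃ k', ∃ Z ∈ g, Ho P k' Z ∧
      s * ψ p (Z p) + ψ q (Z w) + ψ w (Z q) ≠ 0 := by
    by_contra hcon
    push Not at hcon
    obtain ⟨Z, hZ, hne⟩ := exists_opp d hirr hW hpW hqW hwW hpq hqw hs hXg
    apply hne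
    refine G.gind (p := fun Z => s * ψ p (Z p) + ψ q (Z w) + ψ w (Z q) = 0) (by simp) ?_ ?_
      (fun k' Z hZ hZk => hcon k' Z hZ hZk) hZ
    · intro Y Y' h1 h2
      simp only [LinearMap.add_apply, map_add]
      linear_combination h1 + h2
    · intro t Y h1
      simp only [LinearMap.smul_apply, map_smul, smul_eq_mul]
      linear_combination t * h1
  have hk' : k' = -k := by
    have hcase : ψ p (Z p) ≠ 0 ∨ ψ q (Z w) ≠ 0 ∨ ψ w (Z q) ≠ 0 := by
      by_contra hcon
      push Not at hcon
      apply hτ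
      rw [hcon.1, hcon.2.1, hcon.2.2]
      ring
    rcases hcase with h | h | h
    · have h2 := G.form _ _ _ _ hp (hZk r p hp) h
      have : k' = r + (k' + r) - m - (r + r - m) := by abel
      rw [this, h2, ← hk, sub_self, zero_sub]
    · have h2 := G.form _ _ _ _ hq (hZk _ w hwP) h
      have : k' = (m - r) + (k' + (k + r)) - m - k := by abel
      rw [this, h2, sub_self, zero_sub]
    · have h2 := G.form _ _ _ _ hwP (hZk _ q hq) h
      have : k' = (k + r) + (k' + (m - r)) - m - k := by abel
      rw [this, h2, sub_self, zero_sub]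
  rw [hk'] at hZk
  obtain ⟨⟨t, ht⟩, hZF⟩ := hY' Z hZ hZk
  have hZsk := G.skew d (neg_ne_zero.2 hk0) hZ hZk
  have hZq := hZk _ q hq
  have h5 : ψ q (Z q) = 0 := by
    refine G.form0 hq hZq ?_
    intro h
    apply hkk
    have e : (m - r) + (-k + (m - r)) = m - (k + k) := by
      nth_rewrite 2 [hk]
      abel
    rw [e] at h
    exact sub_eq_self.1 h
  have hform2 := form_of d hZsk (u := q) (e := -p) (by rw [map_neg, neg d q, hpq, neg_neg])
    (s := -t) (by rw [map_neg, ht, neg_smul]) (fun x hx hx' => by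
      rw [map_neg, LinearMap.neg_apply, neg_eq_zero] at hx'
      obtain ⟨t', ht'⟩ := hZF x hx' hx
      exact ⟨-t', by rw [ht', smul_neg, neg_smul, neg_neg]⟩)
  have h6 : ψ (Z q) q = 0 := by rw [neg d, h5, neg_zero]
  rw [h6, zero_div, zero_smul, sub_zero] at hform2
  have e : dot ψ (-p) (-(Z q)) = dot ψ p (Z q) := by
    ext x
    simp [dot_apply]
  rw [e] at hform2
  have hYg : (-t / 2) • dot ψ q q + dot ψ p (Z q) ∈ g := hform2 ▸ hZ
  refine sym3 d hW hirr h4 hpW hqW hwW (hW Z hZ q hqW) hpq hpw hqw ?_ h5 hw0 hXg hYg ?_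
  · refine G.form0 hp hZq ?_
    intro h
    apply hk0
    have e : r + (-k + (m - r)) = m - k := by abel
    rw [e] at h
    exact sub_eq_self.1 h
  · intro h
    apply hτ
    have e1 : ψ q (Z w) = - ψ (Z q) w := by rw [hZsk q w, neg_neg]
    have e2 : ψ w (Z q) = - ψ (Z q) w := by rw [neg d]
    rw [ht, map_smul, hpq, smul_eq_mul, mul_one, e1, e2]
    linear_combination (-1) * h

/-- the condition on the relations with exceptional relations -/
def RelE {A : Type*} [AddCommGroup A] (v : Λ →+ A) (g : Submodule K (Module.End K V))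
    (P : Λ → Module.End K V) (m a : Λ) (W : Submodule K V) : Prop :=
  ∀ U : Submodule K V, Stab g U → IrrW g U → ∀ b l l' : Λ, WtIn P W b → WtIn P U l →
    WtIn P U l' → v b ≠ v a → a + l' = b + l → l = a ∨ a + l' = m ∨
      (4 < Module.finrank K W ∧ ((a + b = m ∧ l' = a) ∨ (a + b = m ∧ a + l = m) ∨
        (l' = a ∧ a + l = m)))

lemma val {A : Type*} [AddCommGroup A] {v : Λ →+ A} (G : Grd ψ g P m) (d : Bas ψ g)
    {W : Submodule K V} (hrel : RelE v g P m a W) {k : Λ} {Z : Module.End K V} (hZ : Z ∈ g)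
    (hk : Ho P k Z) (hv : v k ≠ 0) (hb : WtIn P W (a - k)) {l : Λ} (hl : l ≠ m - a) (x : V) :
    Z (P l x) = 0 ∨ k + l = a ∨ (a + (a - k) = m ∧ (l = a ∨ a + (k + l) = m)) ∨
      (l = a ∧ a + (k + l) = m) := by
  by_cases hC : k + l = a ∨ (a + (a - k) = m ∧ (l = a ∨ a + (k + l) = m)) ∨
      (l = a ∧ a + (k + l) = m)
  · exact Or.inr hC
  left
  refine irr_ind d (p := fun x => Z (P l x) = 0) (by simp) ?_ ?_ x
  · intro x y h1 h2
    rw [map_add, map_add, h1, h2, add_zero]
  · intro U hU hUirr x hx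
    by_contra hXl
    apply hC
    have hPl : P l x ≠ 0 := by
      intro h
      rw [h, map_zero] at hXl
      exact hXl rfl
    have hPU := G.pst U hU l x hx
    have hd := hk l _ (G.idem l x)
    have hvb : v (a - k) ≠ v a := by
      rw [map_sub]
      intro h
      exact hv (sub_eq_self.1 h)
    rcases hrel U hU hUirr (a - k) (k + l) l hb ⟨_, hU Z hZ _ hPU, hXl, hd⟩
      ⟨_, hPU, hPl, G.idem l x⟩ hvb (by abel) with h | h | ⟨-, ⟨h, h'⟩ | ⟨h, h'⟩ | ⟨h, h'⟩⟩
    · exact Or.inl h
    · exfalso
      apply hl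
      rw [← h]
      abel
    · exact Or.inr (Or.inl ⟨h, Or.inl h'⟩)
    · exact Or.inr (Or.inl ⟨h, Or.inr h'⟩)
    · exact Or.inr (Or.inr ⟨h, h'⟩)

lemma exists_e [CharZero K] (G : Grd ψ g P m) (d : Bas ψ g) {W₁ : Submodule K V}
    (hW₁ : Stab g W₁) {u : V} (hua : P a u = u) (hs : ∀ x, P a x = x → ∃ t : K, x = t • u)
    (hpair : ∃ x ∈ W₁, ψ u x ≠ 0) :
    ∃ e ∈ W₁, P (m - a) e = e ∧ ψ u e = 1 ∧ (∀ y, P (m - a) y = y → ∃ t : K, y = t • e) := by
  obtain ⟨x, hx, hxne⟩ := hpair
  rw [G.form' hua] at hxne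
  obtain ⟨e, he⟩ : ∃ e, e = (ψ u (P (m - a) x))⁻¹ • P (m - a) x := ⟨_, rfl⟩
  have heW : e ∈ W₁ := by rw [he]; exact W₁.smul_mem _ (G.pst W₁ hW₁ _ x hx)
  have heP : P (m - a) e = e := by rw [he, map_smul, G.idem]
  have hue : ψ u e = 1 := by rw [he, map_smul, smul_eq_mul, inv_mul_cancel₀ hxne]
  refine ⟨e, heW, heP, hue, fun y hy => ⟨ψ u y, ?_⟩⟩
  rw [← sub_eq_zero]
  apply nd_eq d
  intro z
  have hy' : P (m - a) (y - ψ u y • e) = y - ψ u y • e := by
    rw [map_sub, map_smul, hy, heP]
  rw [G.form' hy']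
  have e1 : m - (m - a) = a := by abel
  rw [e1]
  obtain ⟨t, ht⟩ := hs _ (G.idem a z)
  rw [ht, map_smul, neg d, map_sub, map_smul, hue, smul_eq_mul, smul_eq_mul]
  ring

/-- **Nonisotropic blocks with exceptional relations.** -/
theorem exists_dotE [CharZero K] [IsAlgClosed K] {A : Type*} [AddCommGroup A] (v : Λ →+ A)
    (G : Grd ψ g P m) (d : Bas ψ g) {W : Submodule K V} (hW : Stab g W) (hirr : IrrW g W)
    (hWW : ∀ x ∈ W, x ∈ ψ.orthogonal W → x = 0) (h4 : 4 < Module.finrank K W)
    {δ : Λ} {x₀ : V} (hx₀ : x₀ ∈ W) (hx₀0 : x₀ ≠ 0) (hxδ : P δ x₀ = x₀) (hne : v δ ≠ v a)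
    {u : V} (huW : u ∈ W) (hua : P a u = u) (hs : ∀ x, P a x = x → ∃ t : K, x = t • u)
    (hrel : RelE v g P m a W) (hpair : ∃ x ∈ W, ψ u x ≠ 0) :
    ∃ u ∈ W, ∃ w ∈ W, u ≠ 0 ∧ w ≠ 0 ∧ ψ u w = 0 ∧ dot ψ u w ∈ g := by
  obtain ⟨e, heW, heP, hue, hline⟩ := exists_e G d hW hua hs hpair
  have he0 : e ≠ 0 := by
    rintro rfl
    rw [map_zero] at hue
    exact zero_ne_one hue
  have hu0 : u ≠ 0 := by
    rintro rfl
    rw [map_zero, LinearMap.zero_apply] at hue
    exact zero_ne_one hue
  have heu : ψ e u = -1 := by rw [neg d, hue]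
  obtain ⟨κ, hκ⟩ : ∃ κ, κ = a + a - m := ⟨_, rfl⟩
  have hκ0 : κ ≠ 0 := by
    intro h
    have h1 : a = m - a := by
      have : a - (m - a) = κ := by rw [hκ]; abel
      rw [h] at this
      exact sub_eq_zero.1 this
    rw [← h1] at heP
    obtain ⟨t, ht⟩ := hs e heP
    rw [ht, map_smul, d.alt, smul_zero] at hue
    exact zero_ne_one hue
  obtain ⟨k, X, hX, hk, hv, hXe⟩ := hit v G d hW hirr hW hWW hx₀ hx₀0 hxδ heW he0 heP (by
    rw [map_sub, map_sub]
    intro h
    exact hne (sub_right_injective h))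
  have hk0 : k ≠ 0 := by
    rintro rfl
    exact hv (map_zero v)
  have hsk := G.skew d hk0 hX hk
  have hXe' := hk _ _ heP
  have hb : WtIn P W (a - k) := by
    have h1 : ∃ y ∈ W, ψ (X e) y ≠ 0 := by
      by_contra hcon
      push Not at hcon
      exact hXe (hWW _ (hW X hX e heW) ((mem_perp d).2 hcon))
    obtain ⟨y, hy, hy1⟩ := h1
    rw [G.form' hXe'] at hy1
    have e1 : m - (k + (m - a)) = a - k := by abel
    rw [e1] at hy1
    refine ⟨P (a - k) y, G.pst W hW _ y hy, ?_, G.idem _ _⟩
    intro h0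
    rw [h0, map_zero] at hy1
    exact hy1 rfl
  -- components of vectors orthogonal to `u` or `e`
  have hPe : ∀ x, ψ u x = 0 → P (m - a) x = 0 := by
    intro x hx
    obtain ⟨t, ht⟩ := hline _ (G.idem (m - a) x)
    rw [G.form' hua, ht, map_smul, hue, smul_eq_mul, mul_one] at hx
    rw [ht, hx, zero_smul]
  have hPu : ∀ x, ψ e x = 0 → P a x = 0 := by
    intro x hx
    obtain ⟨t, ht⟩ := hs _ (G.idem a x)
    have e1 : m - (m - a) = a := by abel
    rw [G.form' heP, e1, ht, map_smul, heu, smul_eq_mul, mul_neg, mul_one, neg_eq_zero] at hx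
    rw [ht, hx, zero_smul]
  obtain ⟨S, hS⟩ := G.fin
  -- images of vectors
  have himg : ∀ (Z : Module.End K V) (x y : V), (∀ l, ∃ t : K, Z (P l x) = t • y) →
      ∃ t : K, Z x = t • y := by
    intro Z x y h
    have h1 : Z x = ∑ l ∈ S, Z (P l x) := by rw [← map_sum, hS x]
    rw [h1]
    refine Finset.sum_induction _ (fun z => ∃ t : K, z = t • y) ?_ ⟨0, by rw [zero_smul]⟩
      fun l _ => h l
    rintro z z' ⟨t, rfl⟩ ⟨t', rfl⟩
    exact ⟨t + t', (add_smul _ _ _).symm⟩
  by_cases hcase : k = κ ∨ k = -κ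
  swap
  · -- the normal case
    push Not at hcase
    have hmain : ∀ x, ψ u x = 0 → ∃ t : K, X x = t • u := by
      intro x hx
      refine himg X x u fun l => ?_
      by_cases hl : l = m - a
      · exact ⟨0, by rw [hl, hPe x hx, map_zero, zero_smul]⟩
      rcases val G d hrel hX hk hv hb hl x with h | h | ⟨h, -⟩ | ⟨h, h'⟩
      · exact ⟨0, by rw [h, zero_smul]⟩
      · have := hk l _ (G.idem l x)
        rw [h] at this
        exact hs _ this
      · exfalso
        apply hcase.1
        rw [hκ, ← h]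
        abel
      · exfalso
        apply hcase.2
        rw [h] at h'
        rw [hκ, ← h']
        abel
    have hXdot := dot_of d hsk hue hmain
    obtain ⟨w, hw⟩ : ∃ w, w = X e - (ψ (X e) e / 2) • u := ⟨_, rfl⟩
    rw [← hw] at hXdot
    have h0 : ψ (X e) e = 0 := G.form0 hXe' heP (by
      intro h
      apply hcase.1
      have : k = k + (m - a) + (m - a) - m + (a + a - m) := by abel
      rw [this, h, sub_self, zero_add, hκ])
    rw [h0, zero_div, zero_smul, sub_zero] at hw
    refine ⟨u, huW, w, ?_, hu0, ?_, ?_, hXdot ▸ hX⟩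
    · rw [hw]
      exact hW X hX e heW
    · rw [hw]
      exact hXe
    · rw [hw]
      refine G.form0 hua hXe' ?_
      intro h
      apply hk0
      have : k = a + (k + (m - a)) - m := by abel
      rw [this, h, sub_self]
  -- exceptional degrees
  have hvκ : v κ ≠ 0 := by
    rcases hcase with h | h
    · rw [← h]
      exact hv
    · intro h1
      apply hv
      rw [h, map_neg, h1, neg_zero]
  have heW' : WtIn P W (a - κ) := by
    refine ⟨e, heW, he0, ?_⟩
    have : a - κ = m - a := by rw [hκ]; abel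
    rw [this]
    exact heP
  by_cases hκκ : κ + κ = 0
  · -- two torsion
    have hkκ : k = κ := by
      rcases hcase with h | h
      · exact h
      · rw [h]
        exact (eq_neg_of_add_eq_zero_left hκκ).symm
    subst hkκ
    have e1 : k + (m - a) = a := by
      have : k + (m - a) = a := by rw [hκ]; abel
      exact this
    rw [e1] at hXe'
    obtain ⟨s, hse⟩ := hs _ hXe'
    have hs0 : s ≠ 0 := by
      rintro rfl
      rw [zero_smul] at hse
      exact hXe hse
    have e2 : k + a = m - a := by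
      have h1 : k + a = k + k + (m - a) := by
        nth_rewrite 3 [hκ]
        abel
      rw [h1, hκκ, zero_add]
    have hXu := hk a u hua
    rw [e2] at hXu
    obtain ⟨t, ht⟩ := hline _ hXu
    have hF : ∀ x, ψ u x = 0 → ψ e x = 0 → X x = 0 := by
      intro x hx hx'
      have h1 : ∃ t : K, X x = t • (0 : V) := by
        refine himg X x 0 fun l => ⟨0, ?_⟩
        rw [zero_smul]
        by_cases hl : l = m - a
        · rw [hl, hPe x hx, map_zero]
        by_cases hl' : l = a
        · rw [hl', hPu x hx', map_zero]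
        rcases val G d hrel hX hk hv hb hl x with h | h | ⟨-, h | h⟩ | ⟨h, -⟩
        · exact h
        · exfalso
          apply hl
          rw [← e1] at h
          exact add_left_cancel h
        · exact absurd h hl'
        · exfalso
          apply hl'
          have h2 : a + (k + l) = a + (k + a) := by
            rw [h, e2]
            abel
          exact add_left_cancel (add_left_cancel h2)
        · exact absurd h hl'
      obtain ⟨t, ht⟩ := h1
      rw [ht, smul_zero]
    by_cases ht0 : t = 0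
    · -- rank one
      have hform := form_of d hsk hue hse (fun x hx hx' => ⟨0, by rw [hF x hx hx', zero_smul]⟩)
      rw [ht, ht0, zero_smul] at hform
      have h2 : dot ψ u ((s / 2) • u) ∈ g := by
        rw [dot_smul]
        have e : dot ψ e (-(0 : V) - (ψ (0 : V) u / 2) • e) = 0 := by
          ext x
          simp [dot_apply]
        rw [e, add_zero] at hform
        rw [← hform]
        exact hX
      refine ⟨u, huW, (s / 2) • u, W.smul_mem _ huW, hu0, ?_, ?_, h2⟩
      · exact smul_ne_zero (div_ne_zero hs0 two_ne_zero) hu0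
      · rw [map_smul, d.alt, smul_zero]
    obtain ⟨z, hz⟩ := IsAlgClosed.exists_pow_nat_eq (s * t) (n := 2) two_pos
    have hz0 : z ≠ 0 := by
      rintro rfl
      rw [zero_pow two_ne_zero] at hz
      rcases mul_eq_zero.1 hz.symm with h | h
      · exact hs0 h
      · exact ht0 h
    obtain ⟨p, hp⟩ : ∃ p : ℤ → V, p = fun j => if j = 1 then z • u + t • e else
        -(z • u) + t • e := ⟨_, rfl⟩
    have hp1 : p 1 = z • u + t • e := by rw [hp]; rfl
    have hp2 : p (-1) = -(z • u) + t • e := by rw [hp]; rfl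
    have hJ : ∀ (c : ℤ → Prop), c 1 → c (-1) → ∀ j ∈ ({1, -1} : Finset ℤ), c j := by
      intro c h1 h2 j hj
      simp only [Finset.mem_insert, Finset.mem_singleton] at hj
      rcases hj with rfl | rfl
      · exact h1
      · exact h2
    refine dot_of_grad d hW hirr hX hsk (J := {1, -1}) (p := p) (h := z) hz0 (by decide)
      (by decide) (by decide) ?_ ?_ ?_ ?_ ⟨1, by decide⟩ (lt_of_le_of_lt (b := 4) (by decide) h4)
    · refine hJ _ ?_ ?_
      · rw [hp1]
        exact W.add_mem (W.smul_mem _ huW) (W.smul_mem _ heW)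
      · rw [hp2]
        exact W.add_mem (W.neg_mem (W.smul_mem _ huW)) (W.smul_mem _ heW)
    · refine hJ _ ?_ ?_
      · rw [hp1, map_add, map_smul, map_smul, hse, ht, smul_add, smul_smul, smul_smul, smul_smul,
          smul_smul]
        push_cast
        have e3 : (1 : K) * z * z = t * s := by linear_combination hz
        rw [e3, one_mul, add_comm]
      · rw [hp2, map_add, map_neg, map_smul, map_smul, hse, ht]
        push_cast
        have e3 : z * z = t * s := by linear_combination hz
        have e4 : (-1 * z) • (-(z • u) + t • e) = (z * z) • u + (-(z * t)) • e := by module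
        rw [e4, e3]
        module
    · refine hJ _ ?_ ?_
      · rw [hp1, hp2]
        simp only [map_add, map_smul, map_neg, LinearMap.add_apply, LinearMap.smul_apply, d.alt,
          hue, heu, smul_eq_mul]
        intro h
        have h1 : 2 * (z * t) = 0 := by linear_combination h
        rcases mul_eq_zero.1 ((mul_eq_zero.1 h1).resolve_left two_ne_zero) with h2 | h2
        · exact hz0 h2
        · exact ht0 h2
      · rw [neg_neg, hp1, hp2]
        simp only [map_add, map_smul, map_neg, LinearMap.add_apply, LinearMap.smul_apply, d.alt,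
          hue, heu, smul_eq_mul, LinearMap.neg_apply]
        intro h
        have h1 : 2 * (z * t) = 0 := by linear_combination (-1) * h
        rcases mul_eq_zero.1 ((mul_eq_zero.1 h1).resolve_left two_ne_zero) with h2 | h2
        · exact hz0 h2
        · exact ht0 h2
    · intro x hx
      have h1 := hx 1 (by decide)
      have h2 := hx (-1) (by decide)
      rw [hp1] at h1
      rw [hp2] at h2
      simp only [map_add, map_smul, map_neg, LinearMap.add_apply, LinearMap.smul_apply,
        LinearMap.neg_apply, smul_eq_mul] at h1 h2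
      have h3 : 2 * (z * ψ u x) = 0 := by linear_combination h1 - h2
      have h5 : 2 * (t * ψ e x) = 0 := by linear_combination h1 + h2
      exact hF x (((mul_eq_zero.1 ((mul_eq_zero.1 h3).resolve_left two_ne_zero)).resolve_left hz0))
        (((mul_eq_zero.1 ((mul_eq_zero.1 h5).resolve_left two_ne_zero)).resolve_left ht0))
  · -- elements of degree `κ`
    have S2 : ∀ Z ∈ g, Ho P κ Z → (∃ t : K, Z e = t • u) ∧
        ∀ x, ψ u x = 0 → ψ e x = 0 → ∃ t : K, Z x = t • e := by
      intro Z hZ hZk
      have e1 : κ + (m - a) = a := by rw [hκ]; abel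
      have h1 := hZk _ e heP
      rw [e1] at h1
      refine ⟨hs _ h1, fun x hx hx' => himg Z x e fun l => ?_⟩
      by_cases hl : l = m - a
      · exact ⟨0, by rw [hl, hPe x hx, map_zero, zero_smul]⟩
      by_cases hl' : l = a
      · exact ⟨0, by rw [hl', hPu x hx', map_zero, zero_smul]⟩
      rcases val G d hrel hZ hZk hvκ heW' hl x with h | h | ⟨-, h | h⟩ | ⟨h, -⟩
      · exact ⟨0, by rw [h, zero_smul]⟩
      · exfalso
        apply hl
        rw [← e1] at h
        exact add_left_cancel h
      · exact absurd h hl'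
      · have h2 := hZk l _ (G.idem l x)
        have h3 : κ + l = m - a := by rw [← h]; abel
        rw [h3] at h2
        exact hline _ h2
      · exact absurd h hl'
    -- elements of degree `-κ`
    have S3 : WtIn P W (a + κ) → ∀ Z ∈ g, Ho P (-κ) Z → (∃ t : K, Z u = t • e) ∧
        ∀ x, ψ u x = 0 → ψ e x = 0 → ∃ t : K, Z x = t • u := by
      intro hwt Z hZ hZk
      have e1 : -κ + a = m - a := by rw [hκ]; abel
      have h1 := hZk _ u hua
      rw [e1] at h1
      refine ⟨hline _ h1, fun x hx hx' => himg Z x u fun l => ?_⟩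
      by_cases hl : l = m - a
      · exact ⟨0, by rw [hl, hPe x hx, map_zero, zero_smul]⟩
      by_cases hl' : l = a
      · exact ⟨0, by rw [hl', hPu x hx', map_zero, zero_smul]⟩
      have hvκ' : v (-κ) ≠ 0 := by
        rw [map_neg]
        exact neg_ne_zero.2 hvκ
      have hwt' : WtIn P W (a - -κ) := by rwa [sub_neg_eq_add]
      rcases val G d hrel hZ hZk hvκ' hwt' hl x with h | h | ⟨h, -⟩ | ⟨h, -⟩
      · exact ⟨0, by rw [h, zero_smul]⟩
      · have h2 := hZk l _ (G.idem l x)
        rw [h] at h2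
        exact hs _ h2
      · exfalso
        apply hκκ
        have : κ + κ = a + (a - -κ) - m := by
          nth_rewrite 2 [hκ]
          abel
        rw [this, h, sub_self]
      · exact absurd h hl'
    by_cases hkκ : k = κ
    · subst hkκ
      obtain ⟨⟨s, hse⟩, hF⟩ := S2 X hX hk
      have hs0 : s ≠ 0 := by
        rintro rfl
        rw [zero_smul] at hse
        exact hXe hse
      refine core G d hW hirr h4 huW heW hue hua heP hκ hκ0 hκκ hX hk hs0 hse hF ?_
      intro hXu
      refine S3 ⟨X u, hW X hX u huW, hXu, ?_⟩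
      rw [add_comm]
      exact hk a u hua
    · have hkκ' : k = -κ := hcase.resolve_left hkκ
      rw [hkκ'] at hk hb
      rw [sub_neg_eq_add] at hb
      obtain ⟨⟨s, hsu⟩, hF⟩ := S3 hb X hX hk
      by_cases hs0 : s = 0
      · -- rank two
        have hmain : ∀ x, ψ u x = 0 → ∃ t : K, X x = t • u := by
          intro x hx
          obtain ⟨t, ht⟩ := hF (x + ψ e x • u) (by rw [map_add, map_smul, hx, d.alt, smul_zero,
            add_zero]) (by rw [map_add, map_smul, heu, smul_eq_mul]; ring)
          rw [map_add, map_smul, hsu, hs0, zero_smul, smul_zero, add_zero] at ht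
          exact ⟨t, ht⟩
        have hXdot := dot_of d hsk hue hmain
        have hXe'' := hk _ _ heP
        have h0 : ψ (X e) e = 0 := G.form0 hXe'' heP (by
          intro h
          apply hκκ
          have e3 : -κ + (m - a) + (m - a) = m - (κ + κ) := by
            nth_rewrite 3 [hκ]
            abel
          rw [e3] at h
          exact sub_eq_self.1 h)
        rw [h0, zero_div, zero_smul, sub_zero] at hXdot
        refine ⟨u, huW, X e, hW X hX e heW, hu0, hXe, ?_, hXdot ▸ hX⟩
        refine G.form0 hua hXe'' ?_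
        intro h
        apply hκ0
        have e3 : a + (-κ + (m - a)) = m - κ := by abel
        rw [e3] at h
        exact sub_eq_self.1 h
      · refine core G d hW hirr h4 (p := e) (q := -u) (r := m - a) (k := -κ) heW (W.neg_mem huW)
          (by rw [map_neg, heu, neg_neg]) heP ?_ ?_ (neg_ne_zero.2 hκ0) ?_ hX hk
          (s := -s) (neg_ne_zero.2 hs0) (by rw [map_neg, hsu, neg_smul]) ?_ ?_
        · have e3 : m - (m - a) = a := by abel
          rw [map_neg, e3, hua]
        · rw [hκ]
          abel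
        · intro h
          apply hκκ
          have : -κ + -κ = -(κ + κ) := by abel
          rw [this] at h
          exact neg_eq_zero.1 h
        · intro x hx hx'
          rw [map_neg, LinearMap.neg_apply, neg_eq_zero] at hx'
          obtain ⟨t, ht⟩ := hF x hx' hx
          exact ⟨-t, by rw [ht, smul_neg, neg_smul, neg_neg]⟩
        · intro _ Z hZ hZk
          rw [neg_neg] at hZk
          obtain ⟨⟨t, ht⟩, hZF⟩ := S2 Z hZ hZk
          refine ⟨⟨-t, by rw [ht, smul_neg, neg_smul, neg_neg]⟩, fun x hx hx' => ?_⟩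
          rw [map_neg, LinearMap.neg_apply, neg_eq_zero] at hx'
          exact hZF x hx' hx

end Pool.Agent.Helper29.F5
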