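import Pool.Agent.Helper29.F5.Main
import Pool.Agent.Helper66.OTR.Grad

/-!
# The grading defined by a normalizing similitude
-/

namespace Pool.Agent.Helper29.F5

open LinearMap Pool.Agent.Helper66.OTR Pool.Agent.Helper29.MX Module.End

set_option linter.unusedSectionVars false

variable {K V : Type*} [Field K] [AddCommGroup V] [Module K V] [FiniteDimensional K V]

lemma ge_compl [IsAlgClosed K] (γ : V ≃ₗ[K] V) (ν : K) :
    IsCompl (ge γ ν) (⨆ μ : {μ : K // μ ≠ ν}, ge γ μ) := by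
  have hind := independent_maxGenEigenspace (γ : Module.End K V)
  have htop := iSup_maxGenEigenspace_eq_top (γ : Module.End K V)
  constructor
  · have := hind ν
    have e : (⨆ μ : {μ : K // μ ≠ ν}, ge γ μ) = ⨆ (j : K) (_ : j ≠ ν), ge γ j := iSup_subtype
    rw [e]
    exact this
  · rw [codisjoint_iff, eq_top_iff, ← htop]
    refine iSup_le fun μ => ?_
    by_cases h : μ = ν
    · rw [h]
      exact le_sup_left
    · exact le_sup_of_le_right (le_iSup (fun μ : {μ : K // μ ≠ ν} => ge γ μ) ⟨μ, h⟩)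

/-- the projection to a generalized eigenspace -/
noncomputable def Pg [IsAlgClosed K] (γ : V ≃ₗ[K] V) (ν : K) : Module.End K V :=
  (ge γ ν).subtype ∘ₗ (ge γ ν).projectionOnto _ (ge_compl γ ν)

lemma Pg_mem [IsAlgClosed K] (γ : V ≃ₗ[K] V) (ν : K) (x : V) : Pg γ ν x ∈ ge γ ν :=
  Submodule.coe_mem _

lemma Pg_of_mem [IsAlgClosed K] {γ : V ≃ₗ[K] V} {ν : K} {x : V} (hx : x ∈ ge γ ν) :
    Pg γ ν x = x := by
  have := Submodule.projectionOnto_apply_left (ge_compl γ ν) ⟨x, hx⟩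
  simp [Pg, this]

lemma Pg_of_ne [IsAlgClosed K] {γ : V ≃ₗ[K] V} {ν μ : K} (h : μ ≠ ν) {x : V} (hx : x ∈ ge γ μ) :
    Pg γ ν x = 0 := by
  have h1 : x ∈ ⨆ μ : {μ : K // μ ≠ ν}, ge γ μ :=
    Submodule.mem_iSup_of_mem (⟨μ, h⟩ : {μ : K // μ ≠ ν}) hx
  have := (Submodule.projectionOnto_apply_eq_zero_iff (ge_compl γ ν)).2 h1
  simp [Pg, this]

lemma Pg_iff [IsAlgClosed K] {γ : V ≃ₗ[K] V} {ν : K} {x : V} : Pg γ ν x = x ↔ x ∈ ge γ ν :=
  ⟨fun h => by rw [← h]; exact Pg_mem γ ν x, Pg_of_mem⟩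

/-- the grading -/
noncomputable def Pu [IsAlgClosed K] (γ : V ≃ₗ[K] V) (l : Additive Kˣ) : Module.End K V :=
  Pg γ ((l.toMul : Kˣ) : K)

lemma Pu_iff [IsAlgClosed K] {γ : V ≃ₗ[K] V} {l : Additive Kˣ} {x : V} :
    Pu γ l x = x ↔ x ∈ ge γ ((l.toMul : Kˣ) : K) := Pg_iff

/-- the class of a nonzero element -/
def uu (x : Kˣ) : Additive Kˣ := Additive.ofMul x

lemma uu_toMul (x : Kˣ) : (uu x).toMul = x := rfl

theorem exists_grd [IsAlgClosed K] {ψ : LinearMap.BilinForm K V}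
    {g : Submodule K (Module.End K V)} {γ : V ≃ₗ[K] V} {c : Kˣ}
    (hc : ∀ x y, ψ (γ x) (γ y) = c * ψ x y) (hn : ∀ X ∈ g, cj γ X ∈ g)
    (hst : ∀ W : Submodule K V, Stab g W → ∀ x ∈ W, γ x ∈ W) :
    Grd ψ g (Pu γ) (uu c) := by
  have hfin : {l : Additive Kˣ | HasEigenvalue (γ : Module.End K V) ((l.toMul : Kˣ) : K)}.Finite := by
    refine Set.Finite.preimage (f := fun l : Additive Kˣ => ((l.toMul : Kˣ) : K)) ?_
      (finite_hasEigenvalue (γ : Module.End K V))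
    intro a _ b _ hab
    have h1 : a.toMul = b.toMul := Units.ext hab
    exact Additive.toMul.injective h1
  refine ⟨⟨hfin.toFinset, fun x => ?_⟩, fun l x => ?_, fun l l' x hne => ?_, ?_, ?_, ?_⟩
  · refine vec_induction (γ := γ) (p := fun x => ∑ l ∈ hfin.toFinset, Pu γ l x = x) (by simp) ?_ ?_ x
    · intro x y hx hy
      simp only [map_add, Finset.sum_add_distrib, hx, hy]
    · intro ν x hx
      by_cases hx0 : x = 0
      · rw [hx0]
        simp
      have hν : ν ≠ 0 := by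
        rintro rfl
        exact hx0 (ge_zero hx)
      obtain ⟨u, hu⟩ : ∃ u : Kˣ, (u : K) = ν := ⟨Units.mk0 ν hν, rfl⟩
      rw [Finset.sum_eq_single (uu u)]
      · exact Pu_iff.2 (by rw [uu_toMul, hu]; exact hx)
      · intro l _ hl
        refine Pg_of_ne ?_ hx
        intro h
        apply hl
        have h1 : (l.toMul : Kˣ) = u := Units.ext (by rw [hu, h])
        exact Additive.toMul.injective (by rw [h1]; rfl)
      · intro h
        exfalso
        apply h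
        rw [Set.Finite.mem_toFinset, Set.mem_ofPred_eq, uu_toMul, hu]
        exact hasEigenvalue_of_ge hx hx0
  · exact Pu_iff.2 (Pg_mem _ _ _)
  · refine Pg_of_ne ?_ (Pg_mem _ _ _)
    intro h
    apply hne
    exact Additive.toMul.injective (Units.ext h.symm)
  · intro W hW l x hx
    have h1 := Submodule.eq_iSup_inf_genEigenspace (p := W) (f := (γ : Module.End K V)) ⊤
      (hst W hW) (iSup_maxGenEigenspace_eq_top _)
    rw [h1] at hx
    refine Submodule.iSup_induction (motive := fun x => Pu γ l x ∈ W) _ hx ?_ ?_ ?_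
    · rintro μ y ⟨hy, hy'⟩
      by_cases h : μ = ((l.toMul : Kˣ) : K)
      · rw [h] at hy'
        rw [Pu_iff.2 hy']
        exact hy
      · have : Pu γ l y = 0 := Pg_of_ne h hy'
        rw [this]
        exact W.zero_mem
    · rw [map_zero]
      exact W.zero_mem
    · intro a b ha hb
      rw [map_add]
      exact W.add_mem ha hb
  · intro l l' x y hx hy hne
    by_contra hcon
    apply hne
    refine orth_gen hc ?_ (Pu_iff.1 hx) (Pu_iff.1 hy)
    intro h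
    apply hcon
    apply Additive.toMul.injective
    apply Units.ext
    rw [toMul_add, Units.val_mul, uu_toMul, h]
  · intro X hX
    refine hom_induction hn (p := fun X => X ∈ Submodule.span K {Y | Y ∈ g ∧ ∃ k, Ho (Pu γ) k Y})
      (Submodule.zero_mem _) (fun _ _ h1 h2 => Submodule.add_mem _ h1 h2) ?_ hX
    intro μ Z hZ hμ
    by_cases hμ0 : μ = 0
    · rw [hμ0] at hμ
      rw [hom_zero hμ]
      exact Submodule.zero_mem _
    obtain ⟨u, hu⟩ : ∃ u : Kˣ, (u : K) = μ := ⟨Units.mk0 μ hμ0, rfl⟩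
    refine Submodule.subset_span ⟨hZ, uu u, fun l x hx => ?_⟩
    rw [Pu_iff] at hx ⊢
    rw [toMul_add, Units.val_mul, uu_toMul, hu]
    exact map_gen hμ hx

/-- `β` is an eigenvalue of `γ` on `U` -/
def EvOn (γ : V ≃ₗ[K] V) (U : Submodule K V) (β : K) : Prop := ∃ x ∈ U, x ≠ 0 ∧ γ x = β • x

lemma evOn_of_wt [IsAlgClosed K] {γ : V ≃ₗ[K] V} {U : Submodule K V} (hU : ∀ x ∈ U, γ x ∈ U)
    {l : Additive Kˣ} (h : WtIn (Pu γ) U l) : EvOn γ U ((l.toMul : Kˣ) : K) := by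
  obtain ⟨x, hx, hx0, hl⟩ := h
  rw [Pu_iff, mem_maxGenEigenspace] at hl
  obtain ⟨k, hk⟩ := hl
  induction k generalizing x with
  | zero => exact absurd (by simpa using hk) hx0
  | succ k ih =>
    by_cases h : γ x - ((l.toMul : Kˣ) : K) • x = 0
    · exact ⟨x, hx, hx0, sub_eq_zero.1 h⟩
    · exact ih _ (U.sub_mem (hU x hx) (U.smul_mem _ hx)) h (pow_step hk)

lemma ge_of_eig {γ : V ≃ₗ[K] V} {β : K} {x : V} (h : γ x = β • x) : x ∈ ge γ β := by
  rw [mem_maxGenEigenspace]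
  refine ⟨1, ?_⟩
  rw [pow_one, LinearMap.sub_apply, LinearMap.smul_apply, Module.End.one_apply,
    LinearEquiv.coe_coe, h, sub_self]

/-- the hypothesis on `W` -/
def GoodOn (ψ : LinearMap.BilinForm K V) (g : Submodule K (Module.End K V)) (A : Type*)
    [AddCommGroup A] (W : Submodule K V) : Prop :=
  ∃ (γ : V ≃ₗ[K] V) (c : K) (v : K → A) (α δ : K),
    (∀ x y, ψ (γ x) (γ y) = c * ψ x y) ∧
    (∀ X ∈ g, (γ : V →ₗ[K] V) ∘ₗ X ∘ₗ (γ.symm : V →ₗ[K] V) ∈ g) ∧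
    (∀ T : Module.End K V, (∀ Z ∈ g, T * Z = Z * T) → ∀ x, γ (T x) = T (γ x)) ∧
    (∀ x y, x ≠ 0 → y ≠ 0 → v (x * y) = v x + v y) ∧
    Module.finrank K (maxGenEigenspace (γ : V →ₗ[K] V) α) = 1 ∧
    EvOn γ W α ∧ EvOn γ W δ ∧ v δ ≠ v α ∧
    ∀ U : Submodule K V, Stab g U → IrrW g U → ∀ β μ ν : K, EvOn γ W β → EvOn γ U μ →
      EvOn γ U ν → v β ≠ v α → α * ν = β * μ → μ = α ∨ α * ν = c ∨
        (4 < Module.finrank K W ∧ ((α * β = c ∧ ν = α) ∨ (α * β = c ∧ α * μ = c) ∨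
          (ν = α ∧ α * μ = c)))

/-- **Main theorem** for normalizing similitudes -/
theorem general [CharZero K] [IsAlgClosed K] {ψ : LinearMap.BilinForm K V}
    {g : Submodule K (Module.End K V)} (d : Bas ψ g) {A : Type*} [AddCommGroup A]
    {B : Submodule K V} (hB : Stab g B) (hBB : ∀ x ∈ B, x ∈ ψ.orthogonal B → x = 0)
    (H : ∀ W ≤ B, Stab g W → IrrW g W → 2 ≤ Module.finrank K W → GoodOn ψ g A W)
    {X Y : Module.End K V} (hX : Skew ψ X) (hY : Skew ψ Y)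
    (hX0 : ∀ x ∈ ψ.orthogonal B, X x = 0) (hY0 : ∀ x ∈ ψ.orthogonal B, Y x = 0)
    (hXT : ∀ T : Module.End K V, (∀ Y ∈ g, T * Y = Y * T) → X * T = T * X)
    (hYT : ∀ T : Module.End K V, (∀ Y ∈ g, T * Y = Y * T) → Y * T = T * Y) :
    X * Y - Y * X ∈ g := by
  refine main (Λ := Additive Kˣ) (A := A) d hB hBB ?_ hX hY hX0 hY0 hXT hYT
  intro W hWB hW hirr h2
  obtain ⟨γ, c, v, α, δ, hc, hn, hT, hv, hsimp, ⟨u, hu, hu0, hγu⟩, ⟨x₀, hx₀, hx₀0, hγx₀⟩, hne,
    hrel⟩ := H W hWB hW hirr h2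
  have hc0 : c ≠ 0 := by
    rintro rfl
    obtain ⟨y, hy⟩ := exists_ne_of_nd d.nd hu0
    have h1 := hc (γ.symm u) (γ.symm y)
    rw [γ.apply_symm_apply, γ.apply_symm_apply, zero_mul] at h1
    exact hy h1
  have hα0 : α ≠ 0 := by
    rintro rfl
    rw [zero_smul] at hγu
    exact hu0 (γ.injective (by rw [hγu, map_zero]))
  have hδ0 : δ ≠ 0 := by
    rintro rfl
    rw [zero_smul] at hγx₀
    exact hx₀0 (γ.injective (by rw [hγx₀, map_zero]))
  obtain ⟨cu, rfl⟩ : ∃ cu : Kˣ, (cu : K) = c := ⟨Units.mk0 c hc0, rfl⟩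
  obtain ⟨αu, rfl⟩ : ∃ αu : Kˣ, (αu : K) = α := ⟨Units.mk0 α hα0, rfl⟩
  obtain ⟨δu, rfl⟩ : ∃ δu : Kˣ, (δu : K) = δ := ⟨Units.mk0 δ hδ0, rfl⟩
  have hst : ∀ W : Submodule K V, Stab g W → ∀ x ∈ W, γ x ∈ W := by
    intro W hW
    refine comm_stab d (X := (γ : V →ₗ[K] V)) (fun T hT' => ?_) hW
    ext x
    exact hT T hT' x
  have Gr : Grd ψ g (Pu γ) (uu cu) := exists_grd hc hn hst
  obtain ⟨vl, hvl⟩ : ∃ vl : Additive Kˣ →+ A, ∀ l, vl l = v ((l.toMul : Kˣ) : K) :=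
    ⟨{ toFun := fun l => v ((l.toMul : Kˣ) : K)
       map_zero' := by
        have h1 := hv 1 1 one_ne_zero one_ne_zero
        rw [mul_one] at h1
        have h2 : v 1 = 0 := by
          have h3 : v 1 + v 1 = v 1 + 0 := by rw [← h1, add_zero]
          exact add_left_cancel h3
        show v (((0 : Additive Kˣ).toMul : Kˣ) : K) = 0
        rw [toMul_zero, Units.val_one, h2]
       map_add' := fun x y => by
        show v (((x + y).toMul : Kˣ) : K) = _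
        rw [toMul_add, Units.val_mul]
        exact hv _ _ (Units.ne_zero _) (Units.ne_zero _) }, fun x => rfl⟩
  have hu' : u ∈ ge γ (αu : K) := ge_of_eig hγu
  refine ⟨Pu γ, uu cu, vl, uu αu, uu δu, Gr, ?_, ⟨u, hu, hu0, Pu_iff.2 hu', ?_⟩,
    ⟨x₀, hx₀, hx₀0, Pu_iff.2 (ge_of_eig hγx₀)⟩, ?_⟩
  · rw [hvl, hvl]
    exact hne
  · intro x hx
    rw [Pu_iff] at hx
    obtain ⟨t, ht⟩ := (finrank_eq_one_iff_of_nonzero' (⟨u, hu'⟩ : ge γ (αu : K))
      (fun h => hu0 (congrArg Subtype.val h))).1 hsimp ⟨x, hx⟩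
    exact ⟨t, (congrArg Subtype.val ht).symm⟩
  · intro U hU hUirr b l l' wb wl wl' hvb hsum
    have e1 := evOn_of_wt (hst W hW) wb
    have e2 := evOn_of_wt (hst U hU) wl
    have e3 := evOn_of_wt (hst U hU) wl'
    rw [hvl, hvl] at hvb
    have hmul : ∀ x y : Additive Kˣ, (((x + y).toMul : Kˣ) : K) = (x.toMul : Kˣ) * (y.toMul : Kˣ) := by
      intro x y
      rw [toMul_add, Units.val_mul]
    have hsum' : (αu : K) * ((l'.toMul : Kˣ) : K) = (b.toMul : Kˣ) * (l.toMul : Kˣ) := by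
      rw [← hmul, ← hsum, hmul]
      rfl
    have hadd : ∀ l : Additive Kˣ, (αu : K) * ((l.toMul : Kˣ) : K) = cu → uu αu + l = uu cu := by
      intro l h
      refine Additive.toMul.injective (Units.ext ?_)
      rw [hmul]
      exact h
    have heq : ∀ l : Additive Kˣ, ((l.toMul : Kˣ) : K) = αu → l = uu αu := fun l h =>
      Additive.toMul.injective (Units.ext h)
    rcases hrel U hU hUirr _ _ _ e1 e2 e3 hvb hsum' with h | h | ⟨h4, h | h | h⟩
    · exact Or.inl (heq _ h)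
    · exact Or.inr (Or.inl (hadd _ h))
    · exact Or.inr (Or.inr ⟨h4, Or.inl ⟨hadd _ h.1, heq _ h.2⟩⟩)
    · exact Or.inr (Or.inr ⟨h4, Or.inr (Or.inl ⟨hadd _ h.1, hadd _ h.2⟩)⟩)
    · exact Or.inr (Or.inr ⟨h4, Or.inr (Or.inr ⟨heq _ h.1, hadd _ h.2⟩)⟩)

end Pool.Agent.Helper29.F5
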