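import Pool.Agent.Helper29.F5.Grade

/-!
# Isotropic blocks
-/

namespace Pool.Agent.Helper29.F5

open LinearMap Pool.Agent.Helper66.OTR Pool.Agent.Helper29.MX

set_option linter.unusedSectionVars false

section

variable {K V : Type*} [Field K] [AddCommGroup V] [Module K V] [FiniteDimensional K V]

lemma exists_xi [CharZero K] [IsAlgClosed K] {s : Submodule K (Module.End K V)} (hs : LieClosed s)
    (hirr : Irred s) {u : V} {ξ : V →ₗ[K] K} (hξu : ξ u = 0) (ha : rk ξ u ∈ s) (hu : u ≠ 0)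
    (hξ : ξ ≠ 0) : ∃ X ∈ s, ξ (X u) ≠ 0 := by
  by_contra hcon
  push Not at hcon
  have h1 : rk ξ u = 0 := by
    refine trace_nondeg (tz_closed hs) (tz_irred hirr) (fun X hX => hX.1) (M := rk ξ u)
      ⟨by rw [trace_rk, hξu], 0, by rw [zero_smul, add_zero]; exact ha⟩ (fun X hX => ?_)
    rw [rk_mul, trace_rk]
    obtain ⟨-, t, ht⟩ := hX
    have := hcon _ ht
    rw [LinearMap.add_apply, LinearMap.smul_apply, Module.End.one_apply, map_add, map_smul, hξu,
      smul_zero, add_zero] at this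
    exact this
  obtain ⟨x, hx⟩ : ∃ x, ξ x ≠ 0 := by
    by_contra h
    push Not at h
    exact hξ (LinearMap.ext h)
  have h2 := congrArg (fun f => f x) h1
  simp only [rk_apply, LinearMap.zero_apply] at h2
  rcases smul_eq_zero.1 h2 with h3 | h3
  · exact hx h3
  · exact hu h3

lemma frame_of [CharZero K] {s n : Submodule K (Module.End K V)} (hs : LieClosed s)
    (hirr : Irred s) (hle : n ≤ s) (hid : ∀ X ∈ s, ∀ Z ∈ n, X * Z - Z * X ∈ n) {u : V}
    {ξ : V →ₗ[K] K} (hξu : ξ u = 0) (ha : rk ξ u ∈ n) {X₁ : Module.End K V} (hX₁ : X₁ ∈ s)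
    (h1 : ξ (X₁ u) = 1) (h2 : ξ (X₁ (X₁ u)) = 0) : Frame s n ξ (ξ ∘ₗ X₁) u (X₁ u) := by
  have hid' : ∀ X ∈ s, ∀ Z ∈ n, Z * X - X * Z ∈ n := by
    intro X hX Z hZ
    have := n.neg_mem (hid X hX Z hZ)
    rwa [neg_sub] at this
  obtain ⟨y, hy⟩ : ∃ y, y = X₁ u := ⟨_, rfl⟩
  obtain ⟨η, hη⟩ : ∃ η : V →ₗ[K] K, η = ξ ∘ₗ X₁ := ⟨_, rfl⟩
  have hξy : ξ y = 1 := by rw [hy, h1]
  have hηu : η u = 1 := by rw [hη, LinearMap.comp_apply, h1]
  have hηy : η y = 0 := by rw [hη, hy, LinearMap.comp_apply, h2]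
  obtain ⟨h, hh⟩ : ∃ h, h = rk η u - rk ξ y := ⟨_, rfl⟩
  have hhn : h ∈ n := by
    have h1 := hid' _ hX₁ _ ha
    have e : rk ξ u * X₁ - X₁ * rk ξ u = h := by
      rw [hh, hη, hy]
      ext x
      simp [rk_apply]
    rwa [e] at h1
  have hsq : h * h = rk η u + rk ξ y := by
    rw [hh]
    ext x
    simp [rk_apply, hξu, hξy, hηu, hηy]
  have hcube : h * h * h = h := by
    rw [hsq, hh]
    ext x
    simp [rk_apply, hξu, hξy, hηu, hηy, sub_eq_add_neg]
  have hP : pP h = rk η u := by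
    unfold pP
    rw [hsq, hh]
    module
  have hQ : pQ h = rk ξ y := by
    unfold pQ
    rw [hsq, hh]
    module
  have hf : rk η y ∈ n := by
    obtain ⟨-, -, -, -, m5⟩ := comps hs (hle hhn) hcube hX₁
    have e : pQ h * X₁ * pP h = rk η y := by
      rw [hP, hQ]
      ext x
      simp [rk_apply, h1]
    rw [e] at m5
    have h1 := hid _ m5 _ hhn
    have e2 : rk η y * h - h * rk η y = (2 : K) • rk η y := by
      rw [hh]
      ext x
      simp only [LinearMap.sub_apply, Module.End.mul_apply, LinearMap.smul_apply, rk_apply, map_sub,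
        map_smul, hξy, hηu, hηy]
      module
    rw [e2] at h1
    have h2 := n.smul_mem (2 : K)⁻¹ h1
    rwa [smul_smul, inv_mul_cancel₀ two_ne_zero, one_smul] at h2
  rw [← hη, ← hy]
  exact ⟨hs, hirr, hle, hid, hξu, hξy, hηu, hηy, ha, hf⟩

/-- if the degree one parts of the elements of `s` lie separately in `n`, then all the elements
`w ⊗ ξ` lie in `n` -/
lemma all_w [CharZero K] {s n : Submodule K (Module.End K V)} {ξ η : V →ₗ[K] K} {u y : V}
    (F : Frame s n ξ η u y)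
    (h1 : ∀ X ∈ s, rk ξ (Frame.Z ξ η u y (X u)) ∈ n) (h2 : ∀ X ∈ s, rk ξ (Frame.Z ξ η u y (X y)) ∈ n)
    {w : V} (hw1 : ξ w = 0) (hw2 : η w = 0) : rk ξ w ∈ n := by
  obtain ⟨R, hR⟩ : ∃ R : Submodule K V, ∀ x, x ∈ R ↔ rk ξ (Frame.Z ξ η u y x) ∈ n := by
    refine ⟨{
      carrier := {x | rk ξ (Frame.Z ξ η u y x) ∈ n}
      zero_mem' := by
        show rk ξ (Frame.Z ξ η u y 0) ∈ n
        rw [map_zero, rk_zero]
        exact n.zero_mem
      add_mem' := by
        intro a b ha hb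
        show rk ξ (Frame.Z ξ η u y (a + b)) ∈ n
        rw [map_add, rk_add]
        exact n.add_mem ha hb
      smul_mem' := by
        intro t a ha
        show rk ξ (Frame.Z ξ η u y (t • a)) ∈ n
        rw [map_smul, rk_smul]
        exact n.smul_mem t ha }, fun x => Iff.rfl⟩
  have hRs : R = ⊥ ∨ R = ⊤ := by
    refine F.irr.2 R fun X hX x hx => ?_
    rw [hR] at hx ⊢
    have hdec := Frame.decomp (ξ := ξ) (η := η) (u := u) (y := y) x
    have e1 : X x = η x • X u + ξ x • X y + X (Frame.Z ξ η u y x) := by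
      conv_lhs => rw [hdec]
      simp only [map_add, map_smul]
    have h3 : rk ξ (Frame.Z ξ η u y (X (Frame.Z ξ η u y x))) ∈ n := by
      obtain ⟨w, hw⟩ : ∃ w, w = Frame.Z ξ η u y x := ⟨_, rfl⟩
      rw [← hw] at hx ⊢
      have w1 : ξ w = 0 := by rw [hw]; exact F.ξ_Z x
      have w2 : η w = 0 := by rw [hw]; exact F.η_Z x
      have h4 := F.ideal X hX _ hx
      have h5 := F.c1 (F.le h4)
      have e2 : η ∘ₗ (X * rk ξ w - rk ξ w * X) ∘ₗ Frame.Z ξ η u y = 0 := by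
        ext x
        simp only [LinearMap.comp_apply, LinearMap.sub_apply, Module.End.mul_apply, rk_apply,
          map_sub, map_smul, w2, F.ξ_Z, zero_smul, smul_zero, sub_zero, LinearMap.zero_apply,
          map_zero]
      have e3 : Frame.Z ξ η u y ((X * rk ξ w - rk ξ w * X) y) =
          Frame.Z ξ η u y (X w) - ξ (X y) • w := by
        simp only [LinearMap.sub_apply, Module.End.mul_apply, rk_apply, F.ξy, one_smul, map_sub,
          map_smul, Frame.Z_of w1 w2]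
      have e4 : rk (0 : V →ₗ[K] K) u = 0 := by
        ext x
        simp [rk_apply]
      rw [e2, e3, e4, zero_add, rk_sub, rk_smul] at h5
      have h6 := n.add_mem h5 (n.smul_mem (ξ (X y)) hx)
      rwa [sub_add_cancel] at h6
    rw [e1, map_add, map_add, map_smul, map_smul, rk_add, rk_add, rk_smul, rk_smul]
    exact n.add_mem (n.add_mem (n.smul_mem _ (h1 X hX)) (n.smul_mem _ (h2 X hX))) h3
  have hu : u ∈ R := by
    rw [hR, F.Z_u, rk_zero]
    exact n.zero_mem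
  have hRtop : R = ⊤ := by
    refine hRs.resolve_left fun h => ?_
    rw [h, Submodule.mem_bot] at hu
    have := F.ηu
    rw [hu, map_zero] at this
    exact zero_ne_one this
  have : w ∈ R := by rw [hRtop]; trivial
  rw [hR, Frame.Z_of hw1 hw2] at this
  exact this

end

variable {K V Λ : Type*} [Field K] [AddCommGroup V] [Module K V] [FiniteDimensional K V]
variable [AddCommGroup Λ]
variable {ψ : LinearMap.BilinForm K V} {g : Submodule K (Module.End K V)}
variable {P : Λ → Module.End K V} {m : Λ}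

/-- **Isotropic blocks.** -/
theorem blockB [CharZero K] [IsAlgClosed K] {A : Type*} [AddCommGroup A] (v : Λ →+ A)
    (G : Grd ψ g P m) (d : Bas ψ g) {W W' : Submodule K V} (hW : Stab g W) (hirr : IrrW g W)
    (hW' : Stab g W') (hiso : W ≤ ψ.orthogonal W) (hdis : ∀ x ∈ W', x ∈ ψ.orthogonal W → x = 0)
    {δ a : Λ} {x₀ : V} (hx₀ : x₀ ∈ W) (hx₀0 : x₀ ≠ 0) (hxδ : P δ x₀ = x₀) (hne : v δ ≠ v a)
    {u : V} (huW : u ∈ W) (hu0 : u ≠ 0) (hua : P a u = u)
    (hs : ∀ x, P a x = x → ∃ t : K, x = t • u) (hrel : Rel v g P m a W)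
    (hpair : ∃ x ∈ W', ψ u x ≠ 0) {T : Module.End K V} (hT : ∀ x ∈ W, T x ∈ W)
    (htr : trace K W (T.restrict hT) = 0) :
    ∃ Z ∈ ann ψ g (ψ.orthogonal (W ⊔ W')), ∀ x ∈ W, Z x = T x := by
  obtain ⟨e, heW', heP, hue, hline, k, w, hvk, hw0, hwP, hdot, huw⟩ :=
    exists_dot v G d hW hirr hW' hdis hx₀ hx₀0 hxδ hne hua hs hrel hpair
  have hWW' : ∀ x ∈ W, x ∈ W' → x = 0 := fun x h1 h2 => hdis x h2 (hiso h1)
  -- the weight of `w`
  obtain ⟨b, hb⟩ : ∃ b, b = k + (m - a) := ⟨_, rfl⟩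
  rw [← hb] at hwP
  have hde : dot ψ u w e = w + ψ w e • u := by
    rw [dot_apply, hue, one_smul]
  have hmem : w + ψ w e • u ∈ W' := by
    rw [← hde]
    exact hW' _ hdot e heW'
  have hba : b ≠ a := by
    intro h
    rw [h] at hwP
    obtain ⟨t, ht⟩ := hs w hwP
    have ht0 : t ≠ 0 := by
      rintro rfl
      exact hw0 (by rw [ht, zero_smul])
    rw [ht, map_smul, LinearMap.smul_apply, hue, smul_eq_mul, mul_one, ← add_smul] at hmem
    have h2 := W'.smul_mem (t + t)⁻¹ hmem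
    rw [smul_smul, inv_mul_cancel₀ (by
      rw [← two_mul]
      exact mul_ne_zero two_ne_zero ht0), one_smul] at h2
    exact hu0 (hWW' u huW h2)
  have hwW' : w ∈ W' := by
    have h1 := G.pst W' hW' b _ hmem
    rwa [map_add, map_smul, hwP, G.of_ne hua hba, smul_zero, add_zero] at h1
  obtain ⟨y₀, hy₀⟩ : ∃ y₀, y₀ = m - b := ⟨_, rfl⟩
  have hvy : v y₀ ≠ v a := by
    intro h
    apply hvk
    rw [hy₀, hb, map_sub, map_add, map_sub] at h
    have : v m - (v k + (v m - v a)) = v a - v k := by abel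
    rw [this] at h
    exact sub_eq_self.1 h
  have hya : y₀ ≠ a := by
    rintro rfl
    exact hvy rfl
  have hwu : ψ w u = 0 := by rw [neg d, huw, neg_zero]
  -- the functional
  have hf1 : ∀ (l : Λ) (x : V), P l x = x → ψ w x ≠ 0 → l = y₀ := by
    intro l x hx hne
    rw [hy₀, ← G.form _ _ _ _ hwP hx hne]
    abel
  have hstM : Stab g (ψ.orthogonal (W ⊔ W')) := stab_perp d (stab_sup hW hW')
  have hirr' := res_irred hW hirr
  obtain ⟨u', hu'⟩ : ∃ u' : W, (u' : V) = u := ⟨⟨u, huW⟩, rfl⟩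
  have hu'0 : u' ≠ 0 := by
    rintro rfl
    exact hu0 (by rw [← hu']; rfl)
  obtain ⟨ξ, hξ⟩ : ∃ ξ : W →ₗ[K] K, ∀ x, ξ x = ψ w x := ⟨(ψ w) ∘ₗ W.subtype, fun x => rfl⟩
  have hξ0 : ξ ≠ 0 := by
    intro h0
    apply hw0
    refine hdis w hwW' ((mem_perp d).2 fun y hy => ?_)
    rw [← hξ ⟨y, hy⟩, h0]
    rfl
  obtain ⟨n, hn⟩ : ∃ n, n = res (ann ψ g (ψ.orthogonal (W ⊔ W'))) W := ⟨_, rfl⟩
  have hle : n ≤ res g W := by
    rw [hn]
    exact res_mono (ann_le ψ g _) W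
  have hid : ∀ X ∈ res g W, ∀ Z ∈ n, X * Z - Z * X ∈ n := by
    intro X hX Z hZ
    rw [hn] at hZ ⊢
    exact res_ideal d hstM hX hZ
  have ha : rk ξ u' ∈ n := by
    rw [hn]
    refine ⟨_, ⟨hdot, dot_skew d u w, fun x hx => ?_⟩, fun x => ?_⟩
    · rw [mem_perp d] at hx
      rw [dot_apply, neg d u, hx u (Submodule.mem_sup_left huW), neg d w,
        hx w (Submodule.mem_sup_right hwW')]
      simp
    · have h3 : ψ u x = 0 := by
        rw [neg d, (mem_perp d).1 (hiso x.2) u huW, neg_zero]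
      rw [dot_apply, h3, zero_smul, zero_add, rk_apply, ← hu', hξ]
      rfl
  have hξu : ξ u' = 0 := by rw [hξ, hu', hwu]
  -- a homogeneous element which moves `u` to the opposite vector
  obtain ⟨κ, X₀, hX₀, hκ, hX₀u⟩ : ∃ κ, ∃ X ∈ g, Ho P κ X ∧ ψ w (X u) ≠ 0 := by
    by_contra hcon
    push Not at hcon
    obtain ⟨Y, ⟨Y', hY', hYY'⟩, hY⟩ := exists_xi (res_closed d.closed W) hirr' hξu (hle ha) hu'0 hξ0
    apply hY
    rw [hξ, hYY', hu']
    refine G.gind (p := fun X => ψ w (X u) = 0) ?_ ?_ ?_ (fun k X hX hk => hcon k X hX hk) hY'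
    · simp
    · intro X Y h1 h2
      rw [LinearMap.add_apply, map_add, h1, h2, add_zero]
    · intro t X h
      rw [LinearMap.smul_apply, map_smul, h, smul_zero]
  obtain ⟨X₁, hX₁⟩ : ∃ X₁, X₁ = (ψ w (X₀ u))⁻¹ • X₀ := ⟨_, rfl⟩
  have hX₁g : X₁ ∈ g := by rw [hX₁]; exact g.smul_mem _ hX₀
  have hX₁κ : Ho P κ X₁ := by
    intro l x hx
    rw [hX₁, LinearMap.smul_apply, map_smul, hκ l x hx]
  have hX₁u : ψ w (X₁ u) = 1 := by
    rw [hX₁, LinearMap.smul_apply, map_smul, smul_eq_mul, inv_mul_cancel₀ hX₀u]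
  have hκa : κ + a = y₀ := hf1 _ _ (hX₁κ a u hua) (by rw [hX₁u]; exact one_ne_zero)
  obtain ⟨y, hy⟩ : ∃ y, y = X₁ u := ⟨_, rfl⟩
  have hyW : y ∈ W := by rw [hy]; exact hW X₁ hX₁g u huW
  have hyP : P y₀ y = y := by
    have := hX₁κ a u hua
    rwa [hκa, ← hy] at this
  have hy0 : y ≠ 0 := by
    intro h
    rw [← hy, h, map_zero] at hX₁u
    exact zero_ne_one hX₁u
  have hf2 : ∀ (l : Λ) (x : V), P l x = x → ψ w (X₁ x) ≠ 0 → l = a := by
    intro l x hx hne
    have h1 := hf1 _ _ (hX₁κ l x hx) hne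
    rw [← hκa] at h1
    exact add_left_cancel h1
  obtain ⟨X₂, hX₂⟩ : ∃ X₂ : Module.End K W, X₂ = X₁.restrict (hW X₁ hX₁g) := ⟨_, rfl⟩
  have hX₂v : ∀ x : W, (X₂ x : V) = X₁ x := fun x => by rw [hX₂]; rfl
  have hX₂s : X₂ ∈ res g W := ⟨X₁, hX₁g, hX₂v⟩
  have F : Frame (res g W) n ξ (ξ ∘ₗ X₂) u' (X₂ u') := by
    refine frame_of (res_closed d.closed W) hirr' hle hid hξu ha hX₂s ?_ ?_
    · rw [hξ, hX₂v, hu', hX₁u]
    · rw [hξ, hX₂v, hX₂v, hu', ← hy]
      by_contra hne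
      exact hya (hf2 _ _ hyP hne)
  obtain ⟨y', hy'⟩ : ∃ y', y' = X₂ u' := ⟨_, rfl⟩
  have hy'v : (y' : V) = y := by rw [hy', hX₂v, hu', hy]
  obtain ⟨η, hη⟩ : ∃ η : W →ₗ[K] K, η = ξ ∘ₗ X₂ := ⟨_, rfl⟩
  have hηx : ∀ x : W, η x = ψ w (X₁ x) := by
    intro x
    rw [hη, LinearMap.comp_apply, hξ, hX₂v]
  rw [← hη, ← hy'] at F
  have hZv : ∀ x : W, (Frame.Z ξ η u' y' x : V) = x - η x • u - ξ x • y := by
    intro x
    rw [Frame.Z_apply]
    simp [hu', hy'v]
  have hZP : ∀ (l : Λ) (x : W), P l x = (x : V) → P l (Frame.Z ξ η u' y' x) =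
      (Frame.Z ξ η u' y' x : V) := by
    intro l x hx
    rw [hZv, map_sub, map_sub, map_smul, map_smul, hx]
    congr 1
    · congr 1
      by_cases h : η x = 0
      · rw [h, zero_smul, zero_smul]
      · rw [hηx] at h
        rw [hf2 l x hx h, hua]
    · by_cases h : ξ x = 0
      · rw [h, zero_smul, zero_smul]
      · rw [hξ] at h
        rw [hf1 l x hx h, hyP]
  have hZne : ∀ (l : Λ) (x : W), P l (Frame.Z ξ η u' y' x) = (Frame.Z ξ η u' y' x : V) →
      Frame.Z ξ η u' y' x ≠ 0 → l ≠ a := by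
    rintro l x h1 h2 rfl
    obtain ⟨t, ht⟩ := hs _ h1
    have h3 : Frame.Z ξ η u' y' x = t • u' := Subtype.ext (by rw [ht, Submodule.coe_smul, hu'])
    have h4 := F.η_Z x
    rw [h3, map_smul, F.ηu, smul_eq_mul, mul_one] at h4
    rw [h4, zero_smul] at h3
    exact h2 h3
  -- separation
  have sep : ∀ (k : Λ) (X : Module.End K V) (XW : Module.End K W), Ho P k X →
      (∀ x : W, (XW x : V) = X x) → ∀ (c : W) (wc : Λ), P wc c = (c : V) →
      ∀ (φ : W →ₗ[K] K) (wφ : Λ), (∀ (l : Λ) (x : W), P l x = (x : V) → φ x ≠ 0 → l = wφ) →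
      wc + wφ = a + y₀ →
      Frame.Z ξ η u' y' (XW c) = 0 ∨ φ ∘ₗ XW ∘ₗ Frame.Z ξ η u' y' = 0 := by
    intro k X XW hk hXW c wc hc φ wφ hφ hsum
    by_contra hcon
    push Not at hcon
    obtain ⟨h1, h2⟩ := hcon
    obtain ⟨l, x, hx, hxne⟩ : ∃ (l : Λ) (x : W), P l x = (x : V) ∧
        φ (XW (Frame.Z ξ η u' y' x)) ≠ 0 := by
      by_contra hcon
      push Not at hcon
      apply h2
      ext x
      refine G.wind' hW (p := fun x => (φ ∘ₗ XW ∘ₗ Frame.Z ξ η u' y') x =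
        (0 : W →ₗ[K] K) x) ?_ ?_ ?_ x
      · rw [map_zero, map_zero]
      · intro a b h1 h2
        rw [map_add, map_add, h1, h2]
      · intro l x hx
        exact hcon l x hx
    have hx1 := hZP l x hx
    obtain ⟨x₁, hx₁⟩ : ∃ x₁, x₁ = Frame.Z ξ η u' y' x := ⟨_, rfl⟩
    have hx₁0 : x₁ ≠ 0 := by
      intro h
      rw [← hx₁, h, map_zero, map_zero] at hxne
      exact hxne rfl
    have hla : l ≠ a := hZne l x hx1 (by rw [← hx₁]; exact hx₁0)
    rw [← hx₁] at hx1 hxne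
    have hkl : k + l = wφ := by
      refine hφ (k + l) (XW x₁) ?_ hxne
      rw [hXW]
      exact hk l _ hx1
    have hXc : P (k + wc) (XW c) = (XW c : V) := by
      rw [hXW]
      exact hk wc _ hc
    have hl'a : k + wc ≠ a := hZne _ _ (hZP _ _ hXc) h1
    have wt1 : WtIn P W y₀ := ⟨y, hyW, hy0, hyP⟩
    have wt2 : WtIn P W (k + wc) :=
      ⟨_, (Frame.Z ξ η u' y' (XW c)).2, fun h => h1 (Subtype.ext h), hZP _ _ hXc⟩
    have wt3 : WtIn P W l := ⟨_, x₁.2, fun h => hx₁0 (Subtype.ext h), hx1⟩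
    have hsum4 : a + y₀ = l + (k + wc) := by
      rw [← hsum, ← hkl]
      abel
    have hyno : a + y₀ ≠ m := by
      intro h
      have e1 : y₀ = m - a := by rw [← h]; abel
      rw [e1] at hyP
      obtain ⟨t, ht⟩ := hline y hyP
      apply hy0
      refine hWW' y hyW ?_
      rw [ht]
      exact W'.smul_mem t heW'
    by_cases hvl : v l = v a
    · have hv2 : v (k + wc) ≠ v a := by
        intro h
        apply hvy
        have e3 : v a + v y₀ = v l + v (k + wc) := by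
          rw [← map_add, ← map_add, hsum4]
        rw [hvl, h] at e3
        exact add_left_cancel e3
      rcases hrel W hW hirr (k + wc) l y₀ wt2 wt3 wt1 hv2 (by rw [hsum4]; abel) with h | h
      · exact hla h
      · exact hyno h
    · rcases hrel W hW hirr l (k + wc) y₀ wt3 wt2 wt1 hvl hsum4 with h | h
      · exact hl'a h
      · exact hyno h
  have hφ1 : ∀ (l : Λ) (x : W), P l x = (x : V) → ξ x ≠ 0 → l = y₀ := by
    intro l x hx hne
    rw [hξ] at hne
    exact hf1 l x hx hne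
  have hφ2 : ∀ (l : Λ) (x : W), P l x = (x : V) → η x ≠ 0 → l = a := by
    intro l x hx hne
    rw [hηx] at hne
    exact hf2 l x hx hne
  have hu'P : P a u' = (u' : V) := by rw [hu', hua]
  have hy'P : P y₀ y' = (y' : V) := by rw [hy'v, hyP]
  -- reduction to homogeneous elements
  have hlin : ∀ (c : W), (∀ (k : Λ), ∀ X ∈ g, Ho P k X → ∀ XW : Module.End K W,
      (∀ x : W, (XW x : V) = X x) → rk ξ (Frame.Z ξ η u' y' (XW c)) ∈ n) →
      ∀ X ∈ res g W, rk ξ (Frame.Z ξ η u' y' (X c)) ∈ n := by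
    rintro c hc Y ⟨X, hX, hYX⟩
    obtain ⟨Y', hY', hn'⟩ : ∃ XW : Module.End K W, (∀ x : W, (XW x : V) = X x) ∧
        rk ξ (Frame.Z ξ η u' y' (XW c)) ∈ n := by
      refine G.gind (p := fun X => ∃ XW : Module.End K W, (∀ x : W, (XW x : V) = X x) ∧
        rk ξ (Frame.Z ξ η u' y' (XW c)) ∈ n) ?_ ?_ ?_ ?_ hX
      · refine ⟨0, fun x => rfl, ?_⟩
        rw [LinearMap.zero_apply, map_zero, rk_zero]
        exact n.zero_mem
      · rintro X₁ X₂ ⟨Y₁, h1, h2⟩ ⟨Y₂, h3, h4⟩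
        refine ⟨Y₁ + Y₂, fun x => by simp [h1, h3], ?_⟩
        rw [LinearMap.add_apply, map_add, rk_add]
        exact n.add_mem h2 h4
      · rintro t X₁ ⟨Y₁, h1, h2⟩
        refine ⟨t • Y₁, fun x => by simp [h1], ?_⟩
        rw [LinearMap.smul_apply, map_smul, rk_smul]
        exact n.smul_mem t h2
      · intro k X hX hk
        exact ⟨X.restrict (hW X hX), fun _ => rfl, hc k X hX hk _ fun _ => rfl⟩
    have : Y c = Y' c := Subtype.ext (by rw [hYX, hY'])
    rw [this]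
    exact hn'
  have hall : ∀ w₁, ξ w₁ = 0 → η w₁ = 0 → rk ξ w₁ ∈ n := by
    intro w₁ h1 h2
    refine all_w F (hlin u' ?_) (hlin y' ?_) h1 h2
    · intro k X hX hk XW hXW
      rcases sep k X XW hk hXW u' a hu'P ξ y₀ hφ1 rfl with h | h
      · rw [h, rk_zero]
        exact n.zero_mem
      · have h3 := F.acm1 (X := XW) ⟨X, hX, hXW⟩
        rw [h] at h3
        have e4 : rk (0 : W →ₗ[K] K) u' = 0 := by
          ext x
          simp [rk_apply]
        rw [e4, zero_sub] at h3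
        exact (Submodule.neg_mem_iff _).1 h3
    · intro k X hX hk XW hXW
      rcases sep k X XW hk hXW y' y₀ hy'P η a hφ2 (add_comm _ _) with h | h
      · rw [h, rk_zero]
        exact n.zero_mem
      · have h3 := F.c1 (X := XW) ⟨X, hX, hXW⟩
        rw [h] at h3
        have e4 : rk (0 : W →ₗ[K] K) u' = 0 := by
          ext x
          simp [rk_apply]
        rwa [e4, zero_add] at h3
  have hfin := F.all hall htr
  rw [hn] at hfin
  obtain ⟨Z, hZ, hZT⟩ := hfin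
  exact ⟨Z, hZ, fun x hx => (hZT ⟨x, hx⟩).symm⟩

end Pool.Agent.Helper29.F5
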