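import Pool.Agent.Helper29.F5.Iso
import Pool.Agent.Helper29.F5.Exc

/-!
# The main theorem, graded version
-/

namespace Pool.Agent.Helper29.F5

open LinearMap Pool.Agent.Helper66.OTR Pool.Agent.Helper29.MX

set_option linter.unusedSectionVars false

variable {K V Λ A : Type*} [Field K] [AddCommGroup V] [Module K V] [FiniteDimensional K V]
variable [AddCommGroup Λ] [AddCommGroup A]

/-- the hypothesis on the irreducible stable subspaces of `B` -/
def Hyp (Λ A : Type*) [AddCommGroup Λ] [AddCommGroup A] (ψ : LinearMap.BilinForm K V)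
    (g : Submodule K (Module.End K V)) (B : Submodule K V) : Prop :=
  ∀ W ≤ B, Stab g W → IrrW g W → 2 ≤ Module.finrank K W →
    ∃ (P : Λ → Module.End K V) (m : Λ) (v : Λ →+ A) (a δ : Λ), Grd ψ g P m ∧ v δ ≠ v a ∧
    (∃ u ∈ W, u ≠ 0 ∧ P a u = u ∧ ∀ x, P a x = x → ∃ t : K, x = t • u) ∧
    (∃ x ∈ W, x ≠ 0 ∧ P δ x = x) ∧ RelE v g P m a W

variable {ψ : LinearMap.BilinForm K V} {g : Submodule K (Module.End K V)}

lemma comm_skew {X Y : Module.End K V} (hX : Skew ψ X) (hY : Skew ψ Y) :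
    Skew ψ (X * Y - Y * X) := by
  intro x y
  simp only [LinearMap.sub_apply, Module.End.mul_apply, map_sub]
  linear_combination hX (Y x) y - hY (X x) y - hY x (X y) + hX x (Y y)

/-- small dimension -/
lemma rel_of_dim {v : Λ →+ A} {P : Λ → Module.End K V} {m a : Λ} {W : Submodule K V}
    (h : RelE v g P m a W) (hd : ¬ 4 < Module.finrank K W) : Rel v g P m a W := by
  intro U hU hUirr b l l' wb wl wl' hv hsum
  rcases h U hU hUirr b l l' wb wl wl' hv hsum with h1 | h1 | h1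
  · exact Or.inl h1
  · exact Or.inr h1
  · exact absurd h1.1 hd

/-- isotropic blocks -/
lemma rel_of_iso [CharZero K] {v : Λ →+ A} {P : Λ → Module.End K V} {m a : Λ}
    (G : Grd ψ g P m) (d : Bas ψ g) {W W' : Submodule K V} (hW : Stab g W) (hirr : IrrW g W)
    (hW' : Stab g W') (hWW' : ∀ x ∈ W, x ∈ W' → x = 0) {u : V} (huW : u ∈ W) (hu0 : u ≠ 0)
    (hua : P a u = u) (hs : ∀ x, P a x = x → ∃ t : K, x = t • u) (hpair : ∃ x ∈ W', ψ u x ≠ 0)
    (h : RelE v g P m a W) : Rel v g P m a W := by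
  obtain ⟨e, heW', heP, hue, hline⟩ := exists_e G d hW' hua hs hpair
  have key : ¬ WtIn P W (m - a) := by
    rintro ⟨y, hyW, hy0, hy⟩
    obtain ⟨t, ht⟩ := hline y hy
    exact hy0 (hWW' y hyW (ht ▸ W'.smul_mem t heW'))
  intro U hU hUirr b l l' wb wl wl' hv hsum
  rcases h U hU hUirr b l l' wb wl wl' hv hsum with h1 | h1 | ⟨-, h1 | h1 | h1⟩
  · exact Or.inl h1
  · exact Or.inr h1
  · exfalso
    apply key
    have : m - a = b := by rw [← h1.1]; abel
    rw [this]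
    exact wb
  · exfalso
    apply key
    have : m - a = b := by rw [← h1.1]; abel
    rw [this]
    exact wb
  · exfalso
    obtain ⟨y, hyU, hy0, hy⟩ := wl'
    rw [h1.1] at hy
    obtain ⟨t, ht⟩ := hs y hy
    have ht0 : t ≠ 0 := by
      rintro rfl
      exact hy0 (by rw [ht, zero_smul])
    have huU : u ∈ U := by
      have := U.smul_mem t⁻¹ hyU
      rwa [ht, smul_smul, inv_mul_cancel₀ ht0, one_smul] at this
    have hle : W ≤ U := by
      rcases hirr.2 (U ⊓ W) inf_le_right (stab_inf hU hW) with h2 | h2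
      · exfalso
        have : u ∈ U ⊓ W := ⟨huU, huW⟩
        rw [h2, Submodule.mem_bot] at this
        exact hu0 this
      · rw [← h2]
        exact inf_le_left
    have hUW : W = U := by
      rcases hUirr.2 W hle hW with h2 | h2
      · exact absurd h2 hirr.1
      · exact h2
    apply key
    have : m - a = l := by rw [← h1.2]; abel
    rw [this, hUW]
    exact wl

/-- one block -/
theorem block [CharZero K] [IsAlgClosed K] (d : Bas ψ g)
    {X Y : Module.End K V} (hX : Skew ψ X) (hY : Skew ψ Y)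
    (hXT : ∀ T : Module.End K V, (∀ Y ∈ g, T * Y = Y * T) → X * T = T * X)
    (hYT : ∀ T : Module.End K V, (∀ Y ∈ g, T * Y = Y * T) → Y * T = T * Y)
    {B : Submodule K V} (hB : Stab g B) (hBB : ∀ x ∈ B, x ∈ ψ.orthogonal B → x = 0)
    (H : Hyp Λ A ψ g B) (hB0 : B ≠ ⊥) :
    ∃ B₁ ≤ B, Stab g B₁ ∧ B₁ ≠ ⊥ ∧ (∀ x ∈ B₁, x ∈ ψ.orthogonal B₁ → x = 0) ∧
      ∃ Z ∈ g, (∀ x ∈ B₁, Z x = (X * Y - Y * X) x) ∧ ∀ x ∈ ψ.orthogonal B₁, Z x = 0 := by
  obtain ⟨W, hWB, hW, hirr⟩ := exists_irr _ B le_rfl hB hB0 le_rfl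
  obtain ⟨C, hC⟩ : ∃ C, C = X * Y - Y * X := ⟨_, rfl⟩
  have hCsk : Skew ψ C := by rw [hC]; exact comm_skew hX hY
  have hCst : ∀ U : Submodule K V, Stab g U → ∀ x ∈ U, C x ∈ U := by
    intro U hU x hx
    rw [hC]
    exact U.sub_mem (comm_stab d hXT hU _ (comm_stab d hYT hU _ hx))
      (comm_stab d hYT hU _ (comm_stab d hXT hU _ hx))
  rw [← hC]
  have hM := stab_perp d hW
  rcases hirr.2 _ inf_le_left (stab_inf hW hM) with h0 | h0
  · -- not isotropic
    have hWW : ∀ x ∈ W, x ∈ ψ.orthogonal W → x = 0 := by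
      intro x h1 h2
      have : x ∈ W ⊓ ψ.orthogonal W := ⟨h1, h2⟩
      rw [h0] at this
      exact (Submodule.mem_bot K).1 this
    have hpair : ∀ u ∈ W, u ≠ 0 → ∃ x ∈ W, ψ u x ≠ 0 := by
      intro u hu hu0
      by_contra hcon
      push Not at hcon
      exact hu0 (hWW u hu ((mem_perp d).2 hcon))
    have h2 : 2 ≤ Module.finrank K W := by
      by_contra hlt
      have h1 : Module.finrank K W ≤ 1 := by omega
      obtain ⟨z, hz⟩ := finrank_le_one_iff.1 h1
      obtain ⟨x, hx, hx0⟩ := Submodule.exists_mem_ne_zero_of_ne_bot hirr.1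
      obtain ⟨y, hy, hxy⟩ := hpair x hx hx0
      obtain ⟨s, hs⟩ := hz ⟨x, hx⟩
      obtain ⟨t, ht⟩ := hz ⟨y, hy⟩
      apply hxy
      have e1 : x = s • (z : V) := (congrArg Subtype.val hs).symm
      have e2 : y = t • (z : V) := (congrArg Subtype.val ht).symm
      rw [e1, e2, map_smul, map_smul, LinearMap.smul_apply, d.alt, smul_zero, smul_zero]
    obtain ⟨P, m, v, a, δ, G, hne, ⟨u, huW, hu0, hua, hs⟩, ⟨x₀, hx₀, hx₀0, hxδ⟩, hrel⟩ :=
      H W hWB hW hirr h2
    obtain ⟨u, huW, w, hu0, hw0, huw, hdot⟩ : ∃ u ∈ W, ∃ w, u ≠ 0 ∧ w ≠ 0 ∧ ψ u w = 0 ∧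
        dot ψ u w ∈ g := by
      by_cases h4 : 4 < Module.finrank K W
      · obtain ⟨u, hu, w, -, h⟩ :=
          exists_dotE v G d hW hirr hWW h4 hx₀ hx₀0 hxδ hne huW hua hs hrel (hpair u huW hu0)
        exact ⟨u, hu, w, h⟩
      · obtain ⟨-, -, -, -, -, k, w, -, hw0, -, hdot, huw⟩ :=
          exists_dot v G d hW hirr hW hWW hx₀ hx₀0 hxδ hne hua hs (rel_of_dim hrel h4)
            (hpair u huW hu0)
        exact ⟨u, huW, w, hu0, hw0, huw, hdot⟩
    obtain ⟨Z, hZ, hZ1, hZ2⟩ := blockA d hW hirr hWW huW hu0 hw0 huw hdot hCsk (hCst W hW)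
    exact ⟨W, hWB, hW, hirr.1, hWW, Z, hZ, hZ1, hZ2⟩
  · -- isotropic
    have hiso : W ≤ ψ.orthogonal W := inf_eq_left.1 h0
    obtain ⟨N, hN, hc⟩ := d.ss _ (stab_inf hM hB)
    obtain ⟨W', hW'def⟩ : ∃ W', W' = N ⊓ B := ⟨_, rfl⟩
    have hW' : Stab g W' := by rw [hW'def]; exact stab_inf hN hB
    have hW'B : W' ≤ B := by rw [hW'def]; exact inf_le_right
    have hdis : ∀ x ∈ W', x ∈ ψ.orthogonal W → x = 0 := by
      intro x h1 h2
      rw [hW'def] at h1
      have h3 : x ∈ (ψ.orthogonal W ⊓ B) ⊓ N := ⟨⟨h2, h1.2⟩, h1.1⟩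
      rw [hc.inf_eq_bot] at h3
      exact (Submodule.mem_bot K).1 h3
    have hsup : ψ.orthogonal W ⊔ W' = ⊤ := by
      have h1 : (ψ.orthogonal W ⊓ B) ⊔ W' = B := by
        rw [hW'def, ← sup_inf_assoc_of_le N (inf_le_right : ψ.orthogonal W ⊓ B ≤ B),
          hc.sup_eq_top, top_inf_eq]
      rw [eq_top_iff, ← sup_perp d hBB]
      refine sup_le ?_ (le_sup_of_le_left (LinearMap.BilinForm.orthogonal_le hWB))
      rw [← h1]
      exact sup_le_sup_right inf_le_left _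
    have hpair : ∀ u ∈ W, u ≠ 0 → ∃ x ∈ W', ψ u x ≠ 0 := by
      intro u huW hu0
      obtain ⟨y, hy⟩ := exists_ne_of_nd d.nd hu0
      have : y ∈ ψ.orthogonal W ⊔ W' := by rw [hsup]; trivial
      obtain ⟨a, ha, b, hb, rfl⟩ := Submodule.mem_sup.1 this
      refine ⟨b, hb, fun h => hy ?_⟩
      rw [map_add, h, add_zero, neg d, (mem_perp d).1 ha u huW, neg_zero]
    have hWsup : Stab g (W ⊔ W') := stab_sup hW hW'
    have hnd : ∀ x ∈ W ⊔ W', x ∈ ψ.orthogonal (W ⊔ W') → x = 0 := by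
      intro x hx1 hx2
      obtain ⟨a, ha, b, hb, rfl⟩ := Submodule.mem_sup.1 hx1
      rw [mem_perp d] at hx2
      have hb0 : b = 0 := by
        refine hdis b hb ((mem_perp d).2 fun y hy => ?_)
        have h3 := hx2 y (Submodule.mem_sup_left hy)
        rw [map_add, LinearMap.add_apply, (mem_perp d).1 (hiso ha) y hy, zero_add] at h3
        exact h3
      rw [hb0, add_zero] at hx2 ⊢
      apply nd_eq d
      intro y
      have : y ∈ ψ.orthogonal W ⊔ W' := by rw [hsup]; trivial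
      obtain ⟨p, hp, q, hq, rfl⟩ := Submodule.mem_sup.1 this
      rw [map_add, hx2 q (Submodule.mem_sup_right hq), neg d, (mem_perp d).1 hp a ha]
      simp
    -- an element of `g` which agrees with `C` on `W`
    obtain ⟨Z, hZ, hZW⟩ : ∃ Z ∈ ann ψ g (ψ.orthogonal (W ⊔ W')), ∀ x ∈ W, Z x = C x := by
      by_cases h2 : 2 ≤ Module.finrank K W
      · obtain ⟨P, m, v, a, δ, G, hne, ⟨u, huW, hu0, hua, hs⟩, ⟨x₀, hx₀, hx₀0, hxδ⟩, hrel⟩ :=
          H W hWB hW hirr h2
        refine blockB v G d hW hirr hW' hiso hdis hx₀ hx₀0 hxδ hne huW hu0 hua hs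
          (rel_of_iso G d hW hirr hW' (fun x h1 h2 => hdis x h2 (hiso h1)) huW hu0 hua hs
            (hpair u huW hu0) hrel) (hpair u huW hu0) (hCst W hW) ?_
        have hXW := comm_stab d hXT hW
        have hYW := comm_stab d hYT hW
        have e : C.restrict (hCst W hW) =
            X.restrict hXW * Y.restrict hYW - Y.restrict hYW * X.restrict hXW := by
          refine LinearMap.ext fun x => Subtype.ext ?_
          show C x = X (Y x) - Y (X x)
          rw [hC]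
          rfl
        rw [e, map_sub, LinearMap.trace_mul_comm, sub_self]
      · refine ⟨0, (ann ψ g _).zero_mem, fun x hx => ?_⟩
        have h1 : Module.finrank K W ≤ 1 := by omega
        obtain ⟨z, hz⟩ := finrank_le_one_iff.1 h1
        obtain ⟨α, hα⟩ := hz ⟨X z, comm_stab d hXT hW _ z.2⟩
        obtain ⟨β, hβ⟩ := hz ⟨Y z, comm_stab d hYT hW _ z.2⟩
        obtain ⟨s, hs⟩ := hz ⟨x, hx⟩
        have e1 : X z = α • (z : V) := (congrArg Subtype.val hα).symm
        have e2 : Y z = β • (z : V) := (congrArg Subtype.val hβ).symm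
        have e3 : x = s • (z : V) := (congrArg Subtype.val hs).symm
        rw [LinearMap.zero_apply, e3, hC, map_smul, LinearMap.sub_apply, Module.End.mul_apply,
          Module.End.mul_apply, e1, e2, map_smul, map_smul, e1, e2, smul_smul, smul_smul,
          mul_comm β α, sub_self, smul_zero]
    have hZW' : ∀ x ∈ W', Z x = C x := by
      intro x hx
      rw [← sub_eq_zero]
      refine hdis _ (W'.sub_mem (hW' Z hZ.1 x hx) (hCst W' hW' x hx))
        ((mem_perp d).2 fun y hy => ?_)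
      rw [map_sub, LinearMap.sub_apply, hZ.2.1, hCsk, hZW y hy, sub_self]
    refine ⟨W ⊔ W', sup_le hWB hW'B, hWsup, ?_, hnd, Z, hZ.1, ?_, hZ.2.2⟩
    · intro h
      apply hirr.1
      rw [eq_bot_iff, ← h]
      exact le_sup_left
    · intro x hx
      obtain ⟨a, ha, b, hb, rfl⟩ := Submodule.mem_sup.1 hx
      rw [map_add, map_add, hZW a ha, hZW' b hb]

/-- induction over the blocks -/
theorem good [CharZero K] [IsAlgClosed K] (d : Bas ψ g)
    {X Y : Module.End K V} (hX : Skew ψ X) (hY : Skew ψ Y)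
    (hXT : ∀ T : Module.End K V, (∀ Y ∈ g, T * Y = Y * T) → X * T = T * X)
    (hYT : ∀ T : Module.End K V, (∀ Y ∈ g, T * Y = Y * T) → Y * T = T * Y) :
    ∀ n : ℕ, ∀ B : Submodule K V, Stab g B → (∀ x ∈ B, x ∈ ψ.orthogonal B → x = 0) →
      Hyp Λ A ψ g B → Module.finrank K B ≤ n →
      ∃ Z ∈ g, (∀ x ∈ B, Z x = (X * Y - Y * X) x) ∧ ∀ x ∈ ψ.orthogonal B, Z x = 0 := by
  intro n
  induction n with
  | zero =>
    intro B _ _ _ hn
    have hB0 : B = ⊥ := Submodule.finrank_eq_zero.1 (Nat.le_zero.1 hn)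
    refine ⟨0, g.zero_mem, fun x hx => ?_, fun x _ => rfl⟩
    rw [hB0, Submodule.mem_bot] at hx
    rw [hx, map_zero, map_zero]
  | succ n ih =>
    intro B hB hBB H hn
    by_cases hB0 : B = ⊥
    · refine ⟨0, g.zero_mem, fun x hx => ?_, fun x _ => rfl⟩
      rw [hB0, Submodule.mem_bot] at hx
      rw [hx, map_zero, map_zero]
    obtain ⟨B₁, hB1B, hB1, hB10, hB11, Z₁, hZ1, hZ1a, hZ1b⟩ :=
      block d hX hY hXT hYT hB hBB H hB0
    obtain ⟨B₂, hB2⟩ : ∃ B₂, B₂ = B ⊓ ψ.orthogonal B₁ := ⟨_, rfl⟩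
    have hle : B₂ ≤ B := by rw [hB2]; exact inf_le_left
    have hle' : B₂ ≤ ψ.orthogonal B₁ := by rw [hB2]; exact inf_le_right
    have hlt : B₂ < B := by
      refine lt_of_le_of_ne hle fun h => hB10 ?_
      rw [eq_bot_iff]
      intro x hx
      rw [Submodule.mem_bot]
      refine hB11 x hx (hle' ?_)
      rw [h]
      exact hB1B hx
    have hfr := Submodule.finrank_lt_finrank_of_lt hlt
    have hdec : ∀ x ∈ B, ∃ a ∈ B₁, ∃ b ∈ B₂, x = a + b := by
      intro x hx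
      have : x ∈ B₁ ⊔ ψ.orthogonal B₁ := by rw [sup_perp d hB11]; trivial
      obtain ⟨a, ha, b, hb, rfl⟩ := Submodule.mem_sup.1 this
      refine ⟨a, ha, b, ?_, rfl⟩
      rw [hB2]
      refine ⟨?_, hb⟩
      have := B.sub_mem hx (hB1B ha)
      rwa [add_sub_cancel_left] at this
    have hB2st : Stab g B₂ := by
      rw [hB2]
      exact stab_inf hB (stab_perp d hB1)
    have hB22 : ∀ x ∈ B₂, x ∈ ψ.orthogonal B₂ → x = 0 := by
      intro x hx hx'
      refine hBB x (hle hx) ((mem_perp d).2 fun y hy => ?_)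
      obtain ⟨a, ha, b, hb, rfl⟩ := hdec y hy
      rw [map_add, (mem_perp d).1 (hle' hx) a ha, (mem_perp d).1 hx' b hb, add_zero]
    obtain ⟨Z₂, hZ2, hZ2a, hZ2b⟩ := ih B₂ hB2st hB22 (fun W hW => H W (hW.trans hle)) (by omega)
    refine ⟨Z₁ + Z₂, g.add_mem hZ1 hZ2, fun x hx => ?_, fun x hx => ?_⟩
    · obtain ⟨a, ha, b, hb, rfl⟩ := hdec x hx
      have h1 : Z₂ a = 0 := by
        refine hZ2b a ((mem_perp d).2 fun y hy => ?_)
        rw [neg d, (mem_perp d).1 (hle' hy) a ha, neg_zero]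
      rw [LinearMap.add_apply, map_add, map_add, map_add, h1, hZ1a a ha, hZ2a b hb,
        hZ1b b (hle' hb), add_zero, zero_add]
    · rw [LinearMap.add_apply, hZ1b x (LinearMap.BilinForm.orthogonal_le hB1B hx),
        hZ2b x (LinearMap.BilinForm.orthogonal_le hle hx), add_zero]

/-- **Main theorem**, graded version. -/
theorem main [CharZero K] [IsAlgClosed K] (d : Bas ψ g)
    {B : Submodule K V} (hB : Stab g B) (hBB : ∀ x ∈ B, x ∈ ψ.orthogonal B → x = 0)
    (H : Hyp Λ A ψ g B) {X Y : Module.End K V} (hX : Skew ψ X) (hY : Skew ψ Y)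
    (hX0 : ∀ x ∈ ψ.orthogonal B, X x = 0) (hY0 : ∀ x ∈ ψ.orthogonal B, Y x = 0)
    (hXT : ∀ T : Module.End K V, (∀ Y ∈ g, T * Y = Y * T) → X * T = T * X)
    (hYT : ∀ T : Module.End K V, (∀ Y ∈ g, T * Y = Y * T) → Y * T = T * Y) :
    X * Y - Y * X ∈ g := by
  obtain ⟨Z, hZ, hZ1, hZ2⟩ := good d hX hY hXT hYT _ B hB hBB H le_rfl
  have e : X * Y - Y * X = Z := by
    ext x
    have hx : x ∈ B ⊔ ψ.orthogonal B := by rw [sup_perp d hBB]; trivial
    obtain ⟨a, ha, b, hb, rfl⟩ := Submodule.mem_sup.1 hx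
    rw [map_add, map_add, hZ1 a ha, hZ2 b hb, LinearMap.sub_apply (X * Y) (Y * X) b,
      Module.End.mul_apply, Module.End.mul_apply, hX0 b hb, hY0 b hb, map_zero, map_zero, sub_zero]
  rw [e]
  exact hZ

end Pool.Agent.Helper29.F5
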