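import Pool.Agent.Helper29.F5.Adg

/-!
# Elements of degree two
-/

namespace Pool.Agent.Helper29.F5

open LinearMap Pool.Agent.Helper66.OTR Pool.Agent.Helper29.MX Module.End

set_option linter.unusedSectionVars false

variable {K V : Type*} [Field K] [AddCommGroup V] [Module K V] [FiniteDimensional K V]
variable {ψ : LinearMap.BilinForm K V} {g : Submodule K (Module.End K V)}

/-- skew operators with `Z e ∈ K u` which map the orthogonal of `u` and `e` to the line of `e` -/
lemma form_of [CharZero K] (d : Bas ψ g) {Z : Module.End K V} (hZ : Skew ψ Z) {u e : V}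
    (hue : ψ u e = 1) {s : K} (hZe : Z e = s • u)
    (hF : ∀ x, ψ u x = 0 → ψ e x = 0 → ∃ t : K, Z x = t • e) :
    Z = (s / 2) • dot ψ u u + dot ψ e (-(Z u) - (ψ (Z u) u / 2) • e) := by
  obtain ⟨Y, hY⟩ : ∃ Y, Y = Z - (s / 2) • dot ψ u u := ⟨_, rfl⟩
  have hYx : ∀ x, Y x = Z x - (s * ψ u x) • u := by
    intro x
    rw [hY, LinearMap.sub_apply, LinearMap.smul_apply, dot_apply]
    module
  have hYsk : Skew ψ Y := by
    intro x y
    rw [hYx, hYx, map_sub, map_sub, LinearMap.sub_apply, hZ, map_smul, map_smul,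
      LinearMap.smul_apply, smul_eq_mul, smul_eq_mul, neg d x u]
    ring
  have hYe : Y e = 0 := by rw [hYx, hZe, hue, mul_one, sub_self]
  have h1 : Y = dot ψ e (Y (-u) - (ψ (Y (-u)) (-u) / 2) • e) := by
    refine dot_of d hYsk (by rw [map_neg, neg d, hue, neg_neg]) fun x hx => ?_
    obtain ⟨t, ht⟩ := hF (x - ψ u x • e) (by rw [map_sub, map_smul, hue, smul_eq_mul, mul_one,
      sub_self]) (by rw [map_sub, map_smul, hx, d.alt, smul_zero, sub_zero])
    refine ⟨t, ?_⟩
    have h2 : Y (x - ψ u x • e) = t • e := by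
      rw [hYx, ht, map_sub, map_smul, hue, smul_eq_mul, mul_one, sub_self, mul_zero, zero_smul,
        sub_zero]
    rwa [map_sub, map_smul, hYe, smul_zero, sub_zero] at h2
  have h2 : Y u = Z u := by rw [hYx, d.alt, mul_zero, zero_smul, sub_zero]
  rw [map_neg, h2] at h1
  have h3 : ψ (-(Z u)) (-u) = ψ (Z u) u := by rw [map_neg, map_neg, LinearMap.neg_apply, neg_neg]
  rw [h3] at h1
  rw [← h1, hY]
  abel

/-- **Symmetric cubes.** -/
theorem sym3 [CharZero K] [IsAlgClosed K] (d : Bas ψ g) {W : Submodule K V}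
    (hW : Stab g W) (hirr : IrrW g W) (h4 : 4 < Module.finrank K W) {p q w z : V} {s t : K}
    (hpW : p ∈ W) (hqW : q ∈ W) (hwW : w ∈ W) (hzW : z ∈ W)
    (hpq : ψ p q = 1) (hpw : ψ p w = 0) (hqw : ψ q w = 0) (hpz : ψ p z = 0) (hqz : ψ q z = 0)
    (hw0 : w ≠ 0) (hX : (s / 2) • dot ψ p p + dot ψ q w ∈ g)
    (hY : (t / 2) • dot ψ q q + dot ψ p z ∈ g) (hτ : s * t + 2 * ψ z w ≠ 0) :
    ∃ u ∈ W, ∃ w ∈ W, u ≠ 0 ∧ w ≠ 0 ∧ ψ u w = 0 ∧ dot ψ u w ∈ g := by
  classical
  obtain ⟨ω, hω⟩ : ∃ ω, ω = ψ z w := ⟨_, rfl⟩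
  have hqp : ψ q p = -1 := by rw [neg d, hpq]
  have hwp : ψ w p = 0 := by rw [neg d, hpw, neg_zero]
  have hwq : ψ w q = 0 := by rw [neg d, hqw, neg_zero]
  have hzp : ψ z p = 0 := by rw [neg d, hpz, neg_zero]
  have hzq : ψ z q = 0 := by rw [neg d, hqz, neg_zero]
  have hwz : ψ w z = -ω := by rw [neg d, hω]
  rw [← hω] at hτ
  have hq0 : q ≠ 0 := by
    rintro rfl
    rw [map_zero] at hpq
    exact zero_ne_one hpq
  have hp0 : p ≠ 0 := by
    rintro rfl
    rw [map_zero, LinearMap.zero_apply] at hpq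
    exact zero_ne_one hpq
  obtain ⟨H, hH⟩ : ∃ H, H = (s * t - ω) • dot ψ p q - dot ψ w z := ⟨_, rfl⟩
  have hHx : ∀ x, H x = ((s * t - ω) * ψ p x) • q + ((s * t - ω) * ψ q x) • p -
      ψ w x • z - ψ z x • w := by
    intro x
    rw [hH, LinearMap.sub_apply, LinearMap.smul_apply, dot_apply, dot_apply]
    module
  have hHg : H ∈ g := by
    have h1 := d.closed _ hX _ hY
    have e : ((s / 2) • dot ψ p p + dot ψ q w) * ((t / 2) • dot ψ q q + dot ψ p z) -
        ((t / 2) • dot ψ q q + dot ψ p z) * ((s / 2) • dot ψ p p + dot ψ q w) = H := by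
      ext x
      rw [hHx]
      simp only [LinearMap.sub_apply, Module.End.mul_apply, LinearMap.add_apply,
        LinearMap.smul_apply, dot_apply, map_add, map_smul, hpq, hqp, hpw, hqw, hpz, hqz,
        hwp, hwq, hzp, hzq, hwz, ← hω, d.alt, smul_eq_mul, LinearMap.add_apply]
      module
    rwa [e] at h1
  have hHsk : Skew ψ H := by
    intro x y
    rw [hHx, hHx]
    simp only [map_add, map_sub, map_smul, LinearMap.add_apply, LinearMap.sub_apply,
      LinearMap.smul_apply, smul_eq_mul, neg d x p, neg d x q, neg d x w, neg d x z]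
    ring
  -- the commutator with `X`
  have h5 : (3 * (s * t) - 4 * ω) • dot ψ q w ∈ g := by
    have h1 := g.add_mem (d.closed _ hHg _ hX) (g.smul_mem (2 * (s * t - ω)) hX)
    have e : H * ((s / 2) • dot ψ p p + dot ψ q w) - ((s / 2) • dot ψ p p + dot ψ q w) * H +
        (2 * (s * t - ω)) • ((s / 2) • dot ψ p p + dot ψ q w) =
        (3 * (s * t) - 4 * ω) • dot ψ q w := by
      ext x
      simp only [LinearMap.sub_apply, Module.End.mul_apply, LinearMap.add_apply,
        LinearMap.smul_apply, dot_apply, map_add, map_smul, hHx, map_sub, hpq, hqp, hpw, hqw, hpz,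
        hqz, hwp, hwq, hzp, hzq, hwz, ← hω, d.alt, smul_eq_mul]
      module
    rwa [e] at h1
  by_cases h6 : 3 * (s * t) - 4 * ω = 0
  swap
  · have h7 := g.smul_mem (3 * (s * t) - 4 * ω)⁻¹ h5
    rw [smul_smul, inv_mul_cancel₀ h6, one_smul] at h7
    exact ⟨q, hqW, w, hwW, hq0, hw0, hqw, h7⟩
  have hω0 : ω ≠ 0 := by
    intro h7
    rw [h7, mul_zero, sub_zero] at h6
    have h8 : s * t = 0 := (mul_eq_zero.1 h6).resolve_left three_ne_zero
    apply hτ
    rw [h8, h7, mul_zero, add_zero]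
  have h3 : (3 : K) ≠ 0 := three_ne_zero
  obtain ⟨h, hh⟩ : ∃ h, ω = 3 * h := ⟨ω / 3, by field_simp⟩
  have hh0 : h ≠ 0 := by
    rintro rfl
    apply hω0
    rw [hh, mul_zero]
  have hst : s * t - ω = h := by
    have h7 : 3 * (s * t - ω - h) = 0 := by linear_combination h6 + hh
    exact sub_eq_zero.1 ((mul_eq_zero.1 h7).resolve_left h3)
  rw [hst] at hHx
  obtain ⟨P, hP⟩ : ∃ P : ℤ → V, P = fun j => if j = 1 then q else if j = -1 then p else
      if j = 3 then z else w := ⟨_, rfl⟩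
  have hP1 : P 1 = q := by rw [hP]; rfl
  have hP2 : P (-1) = p := by rw [hP]; rfl
  have hP3 : P 3 = z := by rw [hP]; rfl
  have hP4 : P (-3) = w := by rw [hP]; rfl
  have hJ : ∀ (c : ℤ → Prop), c 1 → c (-1) → c 3 → c (-3) → ∀ j ∈ ({1, -1, 3, -3} : Finset ℤ), c j := by
    intro c h1 h2 h3 h4 j hj
    simp only [Finset.mem_insert, Finset.mem_singleton] at hj
    rcases hj with rfl | rfl | rfl | rfl
    · exact h1
    · exact h2
    · exact h3
    · exact h4
  refine dot_of_grad d hW hirr hHg hHsk (J := {1, -1, 3, -3}) (p := P) (h := h) hh0 (by decide)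
    (by decide) (by decide) ?_ ?_ ?_ ?_ ⟨1, by decide⟩ (lt_of_le_of_lt (by decide) h4)
  · refine hJ _ ?_ ?_ ?_ ?_
    · rw [hP1]; exact hqW
    · rw [hP2]; exact hpW
    · rw [hP3]; exact hzW
    · rw [hP4]; exact hwW
  · refine hJ _ ?_ ?_ ?_ ?_
    · rw [hP1, hHx, hpq, d.alt, hwq, hzq]
      push_cast
      module
    · rw [hP2, hHx, hqp, d.alt, hwp, hzp]
      push_cast
      module
    · rw [hP3, hHx, hpz, hqz, hwz, d.alt, hh]
      push_cast
      module
    · rw [hP4, hHx, hpw, hqw, d.alt, ← hω, hh]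
      push_cast
      module
  · refine hJ _ ?_ ?_ ?_ ?_
    · rw [hP1, hP2, hqp]
      exact neg_ne_zero.2 one_ne_zero
    · rw [neg_neg, hP1, hP2, hpq]
      exact one_ne_zero
    · rw [hP3, hP4, ← hω]
      exact hω0
    · rw [neg_neg, hP3, hP4, hwz]
      exact neg_ne_zero.2 hω0
  · intro x hx
    have h1 := hx 1 (by decide)
    have h2 := hx (-1) (by decide)
    have h3 := hx 3 (by decide)
    have h4 := hx (-3) (by decide)
    rw [hP1] at h1
    rw [hP2] at h2
    rw [hP3] at h3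
    rw [hP4] at h4
    rw [hHx, h1, h2, h3, h4]
    simp

end Pool.Agent.Helper29.F5
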